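import Pool.Agent.Helper17.SD.Lim3
import Pool.Agent.Helper60.Comp.G9

/-!
# The zeta functions of a chart of `g + w l`
-/

namespace Mono

namespace SD

open Finset Filter Topology Mono.Comp Mono.It Mono.Comp.G9

/-- The value of the product at zero. -/
noncomputable def I0 (l : List (ℕ × ℕ)) : ℝ := (l.map (fun q => (q.2 : ℝ)⁻¹)).prod

/-- The value of the product at `t`. -/
noncomputable def It (l : List (ℕ × ℕ)) (t : ℝ) : ℝ :=
  (l.map (fun q => ((q.1 : ℝ) * t + q.2)⁻¹)).prod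

theorem prod_ms {n k : ℕ} (blk : Fin n → Fin k) (ρ : Fin n → ℝ) (i : Fin k) (f : ℝ → ℝ) :
    ∏ j ∈ univ.filter (fun j => blk j = i), f (ρ j) = ((ms blk ρ i).map f).prod := by
  unfold ms
  rw [Multiset.map_map]
  rfl

theorem prod_block {k : ℕ} (D : Fin k → List (ℕ × ℕ)) (φ : ℕ × ℕ → ℝ) (i : Fin k) (f : ℝ → ℝ) :
    ∏ j ∈ univ.filter (fun j => blkD D j = i), f (φ ((D (posD D j).1).get (posD D j).2)) =
      ((D i).map (fun q => f (φ q))).prod := by
  rw [prod_ms (blkD D) (fun j => φ ((D (posD D j).1).get (posD D j).2)) i f, ms_chart D φ i]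
  rw [Multiset.map_coe, Multiset.prod_coe, List.map_map]
  rfl

theorem qT_eq (D : Fin 3 → List (ℕ × ℕ)) (e : ℕ) [Decidable (∀ q ∈ D 0, e ∣ q.1)] :
    qT e (blkGcd (blkD D) (ND D) 0) = if ∀ q ∈ D 0, e ∣ q.1 then 1 else 0 := by
  unfold qT
  by_cases h : ∀ q ∈ D 0, e ∣ q.1
  · rw [if_pos h, if_pos ((dvd_gcd D 0 e).2 h)]
  · rw [if_neg h, if_neg (fun h' => h ((dvd_gcd D 0 e).1 h'))]

theorem chart3 (hCT : ChartFormulaT) (hG : GenDir) (hZ : ZrealContT) {e : ℕ} (he : 0 < e)
    (D : Fin 3 → List (ℕ × ℕ)) (hD0 : D 0 ≠ []) (hp : ∀ q ∈ D 0, 0 < q.1 ∧ 0 < q.2)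
    (hD1 : D 1 = [(1, 1)]) (hD2 : D 2 = [(1, 1)]) (T : Fan (dimD D))
    (hT : Adapted (chartA A3 D) T) {s : ℝ} (hs : 0 < s) :
    αT e s * ZrealT e (nuR (nuD D)) (chartA A3 D) T s =
      βT e * I0 (D 0) - γT e s * (βT e / (s + 1) * (I0 (D 0) - It (D 0) (s + 1)) -
        qT e (blkGcd (blkD D) (ND D) 0) * It (D 0) (s + 1)) := by
  classical
  have hD : ∀ i, D i ≠ [] := by
    intro i
    fin_cases i
    · exact hD0
    · intro h
      have h' : D 1 = [] := h
      rw [hD1] at h'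
      exact absurd h' (by simp)
    · intro h
      have h' : D 2 = [] := h
      rw [hD2] at h'
      exact absurd h' (by simp)
  have hpos : ∀ i, ∀ q ∈ D i, 0 < q.1 ∧ 0 < q.2 := by
    intro i
    fin_cases i
    · exact hp
    · intro q hq
      have hq' : q ∈ D 1 := hq
      rw [hD1, List.mem_singleton] at hq'
      subst hq'
      exact ⟨one_pos, one_pos⟩
    · intro q hq
      have hq' : q ∈ D 2 := hq
      rw [hD2, List.mem_singleton] at hq'
      subst hq'
      exact ⟨one_pos, one_pos⟩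
  have hNpos : ∀ j, 0 < ND D j := fun j => (hpos _ _ (List.get_mem _ _)).1
  have hnpos : ∀ j, 0 < nuD D j := fun j => (hpos _ _ (List.get_mem _ _)).2
  have hNR : ∀ j, (0 : ℝ) < ND D j := fun j => by exact_mod_cast hNpos j
  have hnR : ∀ j, (0 : ℝ) < nuD D j := fun j => by exact_mod_cast hnpos j
  have hl1 : (D 1).length = 1 := by rw [hD1]; rfl
  have hl2 : (D 2).length = 1 := by rw [hD2]; rfl
  set a : Fin (dimD D) := finSigmaFinEquiv ⟨1, ⟨0, by rw [hl1]; exact one_pos⟩⟩ with ha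
  set b : Fin (dimD D) := finSigmaFinEquiv ⟨2, ⟨0, by rw [hl2]; exact one_pos⟩⟩ with hb
  have hpa : posD D a = ⟨1, ⟨0, by rw [hl1]; exact one_pos⟩⟩ := by simp [posD, ha]
  have hpb : posD D b = ⟨2, ⟨0, by rw [hl2]; exact one_pos⟩⟩ := by simp [posD, hb]
  have hia : ∀ j, blkD D j = 1 ↔ j = a := by
    intro j
    constructor
    · intro h
      have h1 : posD D j = posD D a := by
        rw [hpa]
        rcases hj : posD D j with ⟨i, l⟩
        have h2 : i = 1 := by
          have := h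
          rw [blkD, hj] at this
          exact this
        subst h2
        congr 1
        apply Fin.ext
        have := l.2
        simp only
        omega
      exact finSigmaFinEquiv.symm.injective h1
    · rintro rfl
      rw [blkD, hpa]
  have hib : ∀ j, blkD D j = 2 ↔ j = b := by
    intro j
    constructor
    · intro h
      have h1 : posD D j = posD D b := by
        rw [hpb]
        rcases hj : posD D j with ⟨i, l⟩
        have h2 : i = 2 := by
          have := h
          rw [blkD, hj] at this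
          exact this
        subst h2
        congr 1
        apply Fin.ext
        have := l.2
        simp only
        omega
      exact finSigmaFinEquiv.symm.injective h1
    · rintro rfl
      rw [blkD, hpb]
  have e1 : ∀ j, blkD D j = 1 → (D (posD D j).1).get (posD D j).2 = (1, 1) :=
    (forall_chart D 1 (fun q => q = (1, 1))).2 (by intro q hq; rw [hD1] at hq; simpa using hq)
  have e2 : ∀ j, blkD D j = 2 → (D (posD D j).1).get (posD D j).2 = (1, 1) :=
    (forall_chart D 2 (fun q => q = (1, 1))).2 (by intro q hq; rw [hD2] at hq; simpa using hq)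
  have g1 : blkGcd (blkD D) (ND D) 1 = 1 := by
    have h1 := (dvd_gcd D 1 (blkGcd (blkD D) (ND D) 1)).1 dvd_rfl (1, 1) (by rw [hD1]; simp)
    exact Nat.dvd_one.1 h1
  have g2 : blkGcd (blkD D) (ND D) 2 = 1 := by
    have h1 := (dvd_gcd D 2 (blkGcd (blkD D) (ND D) 2)).1 dvd_rfl (1, 1) (by rw [hD2]; simp)
    exact Nat.dvd_one.1 h1
  have g0 : 0 < blkGcd (blkD D) (ND D) 0 := gcd_pos D 0 hD0 fun q hq => (hp q hq).1
  set φ : ℕ × ℕ → ℝ := fun q => (q.2 : ℝ) / (q.1 : ℝ) with hφ
  set ρ : Fin (dimD D) → ℝ := fun j => φ ((D (posD D j).1).get (posD D j).2) with hρ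
  have hρ' : ∀ j, ρ j = (nuD D j : ℝ) / (ND D j : ℝ) := fun j => rfl
  have hρpos : ∀ j, 0 < ρ j := fun j => by
    rw [hρ']
    exact div_pos (hnR j) (hNR j)
  have ra : ρ a = 1 := by
    have h1 := e1 a ((hia a).2 rfl)
    rw [hρ]
    simp only
    rw [h1]
    simp [hφ]
  have rb : ρ b = 1 := by
    have h1 := e2 b ((hib b).2 rfl)
    rw [hρ]
    simp only
    rw [h1]
    simp [hφ]
  have hv := val3 hCT hG hZ he (blk_surj D hD) hNpos hT hρpos a b hia hib g1 g2 g0 ra rb hs
  have h3 := (T6.val_iff e hs hNpos (T := T) (ρ := ρ) (A := A3) (blk := blkD D) _).2 hv.symm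
  have hw : (fun j => (ND D j : ℝ) * ρ j) = nuR (nuD D) := by
    funext j
    rw [hρ', mul_div_cancel₀ _ (hNR j).ne']
    rfl
  rw [hw] at h3
  refine h3.trans ?_
  have hw' : ∀ j, (ND D j : ℝ) * ρ j = nuD D j := fun j => congrFun hw j
  have p1 : ∏ j, ((ND D j : ℝ) * ρ j)⁻¹ = I0 (D 0) := by
    simp_rw [hw']
    have h4 := prod_chart' D (fun q => (q.2 : ℝ)⁻¹)
    refine Eq.trans h4 ?_
    rw [Fin.prod_univ_three, hD1, hD2]
    simp [I0]
  have p2 : ∏ j, (ND D j : ℝ)⁻¹ = ((D 0).map (fun q => (q.1 : ℝ)⁻¹)).prod := by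
    have h4 := prod_chart' D (fun q => (q.1 : ℝ)⁻¹)
    refine Eq.trans h4 ?_
    rw [Fin.prod_univ_three, hD1, hD2]
    simp
  have p3 : ∏ j ∈ univ.filter (fun j => blkD D j = 0), 1 / ρ j =
      ((D 0).map (fun q => 1 / φ q)).prod := prod_block D φ 0 (fun x => 1 / x)
  have p4 : ∏ j ∈ univ.filter (fun j => blkD D j = 0), 1 / (s + 1 + ρ j) =
      ((D 0).map (fun q => 1 / (s + 1 + φ q))).prod := prod_block D φ 0 (fun x => 1 / (s + 1 + x))
  have p5 : ((D 0).map (fun q => (q.1 : ℝ)⁻¹)).prod * ((D 0).map (fun q => 1 / φ q)).prod =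
      I0 (D 0) := by
    rw [← List.prod_map_mul, I0]
    congr 1
    refine List.map_congr_left fun q hq => ?_
    have h5 := hp q hq
    have h6 : (0 : ℝ) < q.1 := by exact_mod_cast h5.1
    have h7 : (0 : ℝ) < q.2 := by exact_mod_cast h5.2
    rw [hφ]
    field_simp
  have p6 : ((D 0).map (fun q => (q.1 : ℝ)⁻¹)).prod * ((D 0).map (fun q => 1 / (s + 1 + φ q))).prod =
      It (D 0) (s + 1) := by
    rw [← List.prod_map_mul, It]
    congr 1
    refine List.map_congr_left fun q hq => ?_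
    have h5 := hp q hq
    have h6 : (0 : ℝ) < q.1 := by exact_mod_cast h5.1
    have h7 : (0 : ℝ) < q.2 := by exact_mod_cast h5.2
    rw [hφ]
    simp only
    have h8 : (0 : ℝ) < q.1 * (s + 1) + q.2 := by positivity
    have h9 : (0 : ℝ) < s + 1 + q.2 / q.1 := by positivity
    field_simp
  rw [p1, p2, p3, p4]
  unfold KK
  rw [← p5, ← p6]
  ring

end SD

end Mono
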