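import Pool.Agent.Helper17.SD.Down

/-!
# The stable class: nondegenerate compositions and restriction to smooth subvarieties

See `Pool/Agent/Helper4/It/Defs.lean` for `QStratum`, `GoodQ`, `ZQ`, `SMCQ`, `compStrata`,
`compEig`.

* `crdQ`   : the strata of a coordinate function (one divisor with data `(1, 1)`);
* `ResS S` : the smallest class of pairs (strata of a germ, eigenvalues) which contains `S`, the
             plane curve germs and the products of linear forms, and which is closed under
             nondegenerate compositions in separate variables (`comp`), change of the resolution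
             (`equiv`), and `desus`: if `g + w l` (`w`, `l` two new coordinates) belongs to the
             class, then so does `g`, with the same eigenvalues.
-/

namespace Mono

namespace It

open Finset Mono.Comp Mono.SD MvPolynomial

/-- The smallest class which contains `S`, the plane curve germs and the products of linear forms
and which is closed under nondegenerate compositions, change of the resolution, and passing from
`g + w l` to `g`. -/
inductive ResS (S : List QStratum → Set ℂ → Prop) : List QStratum → Set ℂ → Prop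
  | base (g : List QStratum) (E : Set ℂ) : S g E → ResS S g E
  | curve (C : CurveGerm) : ResS S (C.strata.map toQ) C.eig
  | arr (M : ArrGerm) : ResS S (M.strata.map toQ) M.eig
  | comp {k : ℕ} (P : MvPolynomial (Fin k) ℂ) (b : Fin k → ℝ) (g : Fin k → List QStratum)
      (E : Fin k → Set ℂ)
      (T : ∀ I : (i : Fin k) → Fin (g i).length, Fan (dimD fun i => ((g i).get (I i)).2)) :
      P ≠ 0 → P.coeff 0 = 0 → (∀ i, 0 < b i) → LinearIndependent ℚ b →
      (∀ i, ResS S (g i) (E i)) →
      (∀ I, Adapted (chartA (expo P) fun i => ((g i).get (I i)).2) (T I) ∧ Unimod (T I)) →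
      ResS S (compStrata (expo P) g T) (compEig (expo P) b E)
  | equiv (g g' : List QStratum) (E : Set ℂ) :
      ResS S g E → GoodQ g' → (∀ e : ℕ, 0 < e → ZQ g' e = ZQ g e) → ResS S g' E
  | desus (g : Fin 3 → List QStratum) (E : Set ℂ)
      (T : ∀ I : (i : Fin 3) → Fin (g i).length, Fan (dimD fun i => ((g i).get (I i)).2)) :
      GoodQ (g 0) → g 1 = crdQ → g 2 = crdQ →
      (∀ I, Adapted (chartA (expo (X 0 + X 1 * X 2)) fun i => ((g i).get (I i)).2) (T I) ∧
        Unimod (T I)) →
      ResS S (compStrata (expo (X 0 + X 1 * X 2)) g T) E → ResS S (g 0) E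

theorem good_crdQ : GoodQ crdQ := by
  intro t ht
  have ht' : t = (1, [(1, 1)]) := List.mem_singleton.1 ht
  subst ht'
  refine ⟨by simp, ?_⟩
  intro q hq
  have : q = (1, 1) := List.mem_singleton.1 hq
  subst this
  exact ⟨one_pos, one_pos⟩

/-- The strong monodromy property for the stable class. -/
theorem resS_smc (hCT : ChartFormulaT) (hG : GenDir) (hZ : ZrealContT) (hZE : ZEvalT)
    (hZC : ZQComp) (hCl : Closure) (hC : CurveSMC)
    (hA : ∀ M : ArrGerm, GoodG M.strata ∧ SMC M.strata M.eig) (hB : BaseQ)
    (S : List QStratum → Set ℂ → Prop) (hS : ∀ g E, S g E → GoodQ g ∧ SMCQ g E) :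
    ∀ (g : List QStratum) (E : Set ℂ), ResS S g E → GoodQ g ∧ SMCQ g E := by
  intro g E h
  induction h with
  | base g E h => exact hS g E h
  | curve C => exact ⟨(hB _ C.eig).1 (hC C).1, (hB _ _).2 (hC C).2⟩
  | arr M => exact ⟨(hB _ M.eig).1 (hA M).1, (hB _ _).2 (hA M).2⟩
  | comp P b g E T hP h0 hb hlin _ hT ih =>
    obtain ⟨a1, a2, a3⟩ := expo_facts hP h0
    exact (hCl _ (expo P) b a1 a2 a3 hb hlin g E (fun i => (ih i).1) (fun i => (ih i).2)).2 T hT
  | equiv g g' E _ h0 hid ih =>
    refine ⟨h0, ?_⟩
    intro e he z hz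
    rw [hid e he] at hz ⊢
    exact ih.2 e he z hz
  | desus g E T h0 h1 h2 hT _ ih =>
    refine ⟨h0, ts_smc h0 ih.2 ?_⟩
    intro e he s hs
    have hgd : ∀ i, GoodQ (g i) := by
      intro i
      fin_cases i
      · exact h0
      · show GoodQ (g 1)
        rw [h1]
        exact good_crdQ
      · show GoodQ (g 2)
        rw [h2]
        exact good_crdQ
    have h3 := (hZC 3 (expo (X 0 + X 1 * X 2)) g T (by rw [expo3]; exact tri3.1)
      (by rw [expo3]; exact tri3.2.2.1) (by rw [expo3]; exact tri3.2.1) hgd
      (fun I => (hT I).2)).2 e he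
    rw [h3, expo3]
    refine ts_eval hCT hG hZ hZE h0 h1 h2 T (fun I => ?_) he hs
    have h4 := (hT I).1
    rwa [expo3] at h4

end It

end Mono
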