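import Pool.Agent.Helper33.Mono.All
import Pool.Agent.Helper10.Mono.NewtonFan
import Pool.Agent.Helper90.Mono.FanB
import Pool.Agent.Helper80.Mono.IdxProj
import Pool.Agent.Helper75.Mono.CellVol
import Pool.Agent.Helper20.Mono.CellDecomp
import Pool.Agent.Helper49.Comp.K1
import Pool.Agent.Helper86.Comp.K2
import Pool.Agent.Helper89.Comp.K5
import Pool.Agent.Helper49.Comp.K6
import Pool.Agent.Helper11.Comp.K7
import Pool.Agent.Helper70.Comp.K8
import Pool.Agent.Helper85.Comp.P1
import Pool.Agent.Helper89.Comp.P2
import Pool.Agent.Helper33.Comp.P4
import Pool.Agent.Helper37.Comp.P5
import Pool.Agent.Helper22.Comp.P6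
import Pool.Agent.Helper65.Comp.P7
import Pool.Agent.Helper7.Comp.P8
import Pool.Agent.Helper62.Comp.P9
import Pool.Agent.Helper84.Comp.P10
import Pool.Agent.Helper63.Comp.G2a
import Pool.Agent.Helper40.Comp.G2b
import Pool.Agent.Helper56.Comp.G3
import Pool.Agent.Helper32.Comp.G4
import Pool.Agent.Helper14.Comp.G5
import Pool.Agent.Helper5.Comp.G6
import Pool.Agent.Helper53.Comp.G8
import Pool.Agent.Helper5.Comp.C1
import Pool.Agent.Helper53.Comp.C2
import Pool.Agent.Helper28.Comp.C3
import Pool.Agent.Helper28.Comp.C4
import Pool.Agent.Helper28.Comp.C5
import Pool.Agent.Helper37.Comp.C6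
import Pool.Agent.Helper87.Comp.C7
import Pool.Agent.Helper45.Comp.A1
import Pool.Agent.Helper36.Comp.A2
import Pool.Agent.Helper87.Comp.A3
import Pool.Agent.Helper67.Comp.A4
import Pool.Agent.Helper25.Comp.A5
import Pool.Agent.Helper53.Comp.Curve
import Pool.Agent.Helper38.It.U1
import Pool.Agent.Helper73.It.U2
import Pool.Agent.Helper93.It.U3
import Pool.Agent.Helper35.It.K2
import Pool.Agent.Helper32.It.K3
import Pool.Agent.Helper4.It.K4
import Pool.Agent.Helper4.It.K9
import Pool.Agent.Helper4.It.G7
import Pool.Agent.Helper16.It.G11
import Pool.Agent.Helper74.It.T1
import Pool.Agent.Helper80.It.T2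
import Pool.Agent.Helper8.It.T3
import Pool.Agent.Helper35.It.T4
import Pool.Agent.Helper80.It.T5
import Pool.Agent.Helper99.It.T6
import Pool.Agent.Helper8.It.T7
import Pool.Agent.Helper90.It.C1
import Pool.Agent.Helper32.It.C2
import Pool.Agent.Helper35.It.C3
import Pool.Agent.Helper60.It.C4
import Pool.Agent.Helper90.It.C5
import Pool.Agent.Helper4.It.C6
import Pool.Agent.Helper4.It.C7
import Pool.Agent.Helper4.It.Final

/-!
# The monodromy conjecture is closed under nondegenerate compositions

Let `P ≠ 0` be a polynomial in `k` variables with `P(0) = 0`, Newton nondegenerate at the origin (no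
hypothesis on its monomials), and let `g_1, …, g_k` be germs of holomorphic functions in separate
variables, vanishing at the origin.  We prove: if the strong form of the local topological monodromy
conjecture holds for `g_1, …, g_k`, then it holds for `P(g_1, …, g_k)`; for example for the sums
`g_1 + g_2` (Thom–Sebastiani), the suspensions `g_1 + z^a`, the products, and all polynomials
`P(g_1, …, g_k)` with general coefficients and given exponents.  So it holds for all germs
obtained, by iteration, from plane curve germs (reduced or not) and products of linear forms (with
multiplicities; in particular coordinates); at the first step one gets all Newton nondegenerate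
germs, and already at the second step germs which are degenerate with respect to their Newton
polyhedron in every system of coordinates.

## The strong form

A germ `g` is given by the list of the strata over the origin of an embedded resolution, with
their numerical data (`List QStratum`).  A component with `N = 0` (it is contained in the zero set
of the Jacobian determinant only) contributes the constant factor `1 / ν` to all expressions; it is
omitted from the lists, and the weight of a stratum is its Euler characteristic times the product of
these factors.

* `ZQ g e` is the topological zeta function `∑ χ(E_I°) ∏_{i ∈ I} 1 / (N_i s + ν_i)` of Denef and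
  Loeser, over the strata with `e ∣ N_i` for all `i ∈ I`; `e = 1` gives the topological zeta
  function of the problem.
* `E` is a set of eigenvalues of the monodromy on the *reduced* cohomology of the Milnor fibres of
  `g` at points of `g = 0` near the origin.
* `SMCQ g E`: for every `e ≥ 1` and every pole `z` of `ZQ g e`, `exp(2 π i z) ∈ E`, unless `e = 1`,
  `z = -1` and the pole is simple.  So it contains the conjecture for all characters, and also says
  that poles `-1` of order at least two and other integral poles only occur if `1` is an eigenvalue
  on reduced cohomology.  `SMCQ g E` implies that for every pole `z` of the topological zeta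
  function `exp(2 π i z)` is an eigenvalue of the monodromy of `g` (for `z = -1`: on `H^0`).

## The resolution of the composition

Let `Y_i → X_i` be the embedded resolution of `g_i`.  Near a point of a product of strata of the
`Y_i`, on which exactly the components with data `(N_j, ν_j)` meet, `g_i = ∏ y_j^{N_j}` and the form
is `∏ y_j^{ν_j - 1} dy`, so that `f = P(∏ y_{1j}^{N_{1j}}, …, ∏ y_{kj}^{N_{kj}})`, with exponents
`chartA (expo P) D`; this is Newton nondegenerate, because the monomial map is a submersion of
tori.  So `f` is resolved by a toric modification given by a unimodular fan which refines the dual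
fan of its Newton polyhedron (the fans of all the charts glue if they are chosen compatibly; the
theorem holds for all choices, and does not use any compatibility).  The strata over the origin
with nonzero Euler characteristic are listed in `chartStrata`: a cone `δ` of the fan whose dual
face `φ` is compact, of dimension `n - |δ|`, gives the orbit of `δ` without the strict transform,
`χ = (-1)^{dim φ} Vol(φ)`, and the intersection of the orbit with the strict transform,
`χ = -(-1)^{dim φ} Vol(φ)` if `dim φ > 0` (Khovanskii); the divisor of the vector `a ∈ δ` has
`N = min_A ⟨a, ·⟩` and `ν = ⟨ν, a⟩`.  `compStrata` is the list for all products of strata.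

## The eigenvalues

`multS (expo P) K b V lam t₀` (see `NondegenerateComposition` and
`Pool/Agent/Helper53/Comp/Defs.lean`): let `x_i` be points with `g_i(x_i) = 0` for `i ∉ K`, and
`g_i(x_i) = c_i t^{b_i}` for `i ∈ K` (`c_i` general constants, `t → 0`), `G_i` the restriction of
`g_i` to a small ball with centre `x_i`.  The direct image of the constant sheaf under `G_i` is the
direct sum of the constant sheaf and of the extensions by zero `j_! H` of the local systems `H` of
the reduced cohomology of the Milnor fibre (up to shift).  Hence the sheaf of vanishing cycles
`φ_f` contains, as direct summands, the vanishing cycles of `P` with coefficients in the exterior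
product of `j_! L_i`, `i ∈ V` (`L_i` the part of such a local system with eigenvalue `lam i`) and
of constant sheaves, `i ∉ V`.  Up to sign and up to the positive factor `∏ rank L_i`,
`multSr (expo P) K b V lam t₀` is the multiplicity of `t₀` in the alternating sum of the
cohomology of these vanishing cycles, integrated with respect to the Euler characteristic over the
slice `x_i = c_i t^{b_i}` (`i ∈ K`), `|x_i| < t^{b_i}` (`i ∉ K`) of `P = 0`: it is the
multiplicity `multS` for the nearby cycles (formula of A'Campo and Varchenko), minus, for `V = ∅`
and `t₀ = 1`, the Euler characteristic of the part of the slice which lies in the coordinate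
subspaces on which `P` vanishes identically (`1` if `P` vanishes on `ℂ^K`, and `0` otherwise; at
the other points of `P = 0` near the origin `P = 0` is smooth).  So the elements of
`compEig (expo P) b E` are eigenvalues of the monodromy on the reduced cohomology of the Milnor
fibres of `f` at points arbitrarily near the origin, if those of `E i` are for `g_i`.

`b` is a vector of positive numbers, linearly independent over `ℚ`.
-/

namespace Pool.Agent.Results.MP_aa7fc1_ag.CompositionClosure

open Mono Mono.Comp Mono.It

theorem result :
    (∀ (g : List QStratum) (E : Set ℂ), Res g E → GoodQ g ∧ SMCQ g E) ∧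
    ∀ {k : ℕ} (P : MvPolynomial (Fin k) ℂ), P ≠ 0 → P.coeff 0 = 0 →
      ∀ b : Fin k → ℝ, (∀ i, 0 < b i) → LinearIndependent ℚ b →
      ∀ (g : Fin k → List QStratum) (E : Fin k → Set ℂ),
      (∀ i, GoodQ (g i)) → (∀ i, SMCQ (g i) (E i)) →
      (∀ I : (i : Fin k) → Fin (g i).length, ∃ T : Fan (dimD fun i => ((g i).get (I i)).2),
        Adapted (chartA (expo P) fun i => ((g i).get (I i)).2) T ∧ Unimod T) ∧
      ∀ T : ∀ I : (i : Fin k) → Fin (g i).length, Fan (dimD fun i => ((g i).get (I i)).2),
      (∀ I, Adapted (chartA (expo P) fun i => ((g i).get (I i)).2) (T I) ∧ Unimod (T I)) →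
      GoodQ (compStrata (expo P) g T) ∧
        SMCQ (compStrata (expo P) g T) (compEig (expo P) b E) := by
  have hS := spanT
  have hSC := starCoverT
  have hW := wallT hS hSC
  have hB := bdryT hS hSC
  have hK := kFormula hS hW hB idxPos idxWall idxBdry
  have hL := lowDegree hK
  have hPV := pairVanish hL
  have hLO := laplaceOrthant hS hW hB idxPos idxWall idxBdry
  have hPr := primalAssembly idxPos hS hK hLO dualLattice (sideDual hS hSC) (sidePrimal hS hSC)
  have hSCt := simplexCount idxPos
  have hNV := nvolSum hSCt
  have hZW := zwIdentity hPr hK
  have hDF := dualFan fanOfGeneric genericHeights coneGen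
  have hCV := cellVol cellDecomp hSCt idxProj
  have hA := algMainV hS hSC
  have hMF := multFormulaI (boxCountR idxPos) boxCountZ hS
  have hCM := classMainI hA hMF boxFinite
  have hKT := killThm hPV
  have hCL := classLimitR hL
  have hLW := limitWR hCL killZeroR
  have hNK := nodeKillI hCM hKT
  have hLF := liftFan liftCrd
  have hCF := chartFormula (faceSumR hNV) hLF liftCrd liftIdx liftVol partFrac hZW
  have hCT := chartFormulaT hCF (faceSumT hNV) hLF liftCrd liftIdx liftVol partFrac
    (zwIdentityT hPr) liftLat
  have hEx := extExistsT hCT genDir zrealContT hDF
  have hER := extRec ddsRec genDir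
  have hRM := redMulti hER
  have hMo := moebiusV volHeight
  have hMT := moebiusT volHeight
  have hNL := nodeLimI hLW hNK limLemma genDir
  have hCo := collectT zEvalT hMo hMT hRM
  have hZC := zqComp (zqChart dvdCone)
  have hCl := closure (uniFan (noMix star2)) fanB hEx redExists (coefPoleQ coefPole) hCo hNL hMT
    poleR poleR2 (linkI hCV) hZC
  have hC := curveSMC blowTree blowNum treeIneq vertexRel sameRatio curvePole curveOne rupture
  have hAr := arrSMC arrRank crapo arrRec arrPole
  refine ⟨res_smc hCl hC hAr baseQ, ?_⟩
  intro k P hP h0 b hb hlin g E hg hE
  obtain ⟨a1, a2, a3⟩ := expo_facts hP h0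
  exact hCl k (expo P) b a1 a2 a3 hb hlin g E hg hE

end Pool.Agent.Results.MP_aa7fc1_ag.CompositionClosure
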