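import Pool.Agent.Results.MP_aa7fc1_ag.StableCompositionClosure

/-!
# The statement of the earlier hand-in CompositionClosure follows
-/

namespace Mono

namespace SD

open Finset Mono.Comp Mono.It

/-- The class `Res` of the earlier hand-in is contained in every class `ResS S`. -/
theorem res_sub (S : List QStratum → Set ℂ → Prop) (g : List QStratum) (E : Set ℂ)
    (h : Res g E) : ResS S g E := by
  induction h with
  | curve C => exact ResS.curve C
  | arr M => exact ResS.arr M
  | comp P b g E T hP h0 hb hlin _ hT ih => exact ResS.comp P b g E T hP h0 hb hlin ih hT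

/-- The statement of CompositionClosure, derived from the new result. -/
theorem compositionClosure :
    (∀ (g : List QStratum) (E : Set ℂ), Res g E → GoodQ g ∧ SMCQ g E) ∧
    ∀ {k : ℕ} (P : MvPolynomial (Fin k) ℂ), P ≠ 0 → P.coeff 0 = 0 →
      ∀ b : Fin k → ℝ, (∀ i, 0 < b i) → LinearIndependent ℚ b →
      ∀ (g : Fin k → List QStratum) (E : Fin k → Set ℂ),
      (∀ i, GoodQ (g i)) → (∀ i, SMCQ (g i) (E i)) →
      (∀ I : (i : Fin k) → Fin (g i).length, ∃ T : Fan (dimD fun i => ((g i).get (I i)).2),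
        Adapted (chartA (expo P) fun i => ((g i).get (I i)).2) T ∧ Unimod T) ∧
      ∀ T : ∀ I : (i : Fin k) → Fin (g i).length, Fan (dimD fun i => ((g i).get (I i)).2),
      (∀ I, Adapted (chartA (expo P) fun i => ((g i).get (I i)).2) (T I) ∧ Unimod (T I)) →
      GoodQ (compStrata (expo P) g T) ∧
        SMCQ (compStrata (expo P) g T) (compEig (expo P) b E) := by
  have hR := Pool.Agent.Results.MP_aa7fc1_ag.StableCompositionClosure.result
  refine ⟨fun g E h => hR.1 (fun _ _ => False) (fun _ _ h => h.elim) g E (res_sub _ g E h), ?_⟩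
  intro k P hP h0 b hb hlin g E hg hE
  refine ⟨fun I => hR.2 P hP h0 g I, fun T hT => ?_⟩
  refine hR.1 (fun g' E' => ∃ i, g' = g i ∧ E' = E i) ?_ _ _
    (ResS.comp P b g E T hP h0 hb hlin (fun i => ResS.base _ _ ⟨i, rfl, rfl⟩) hT)
  rintro g' E' ⟨i, rfl, rfl⟩
  exact ⟨hg i, hE i⟩

end SD

end Mono
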