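import Pool.Agent.Helper4.It.Final
import Pool.Agent.Helper92.MonoStab.Stab

/-!
# Candidate poles of the zeta functions of a list of strata
-/

namespace Mono

namespace It

open Finset Mono.Comp

theorem denom_add_eval {a b : RatFunc ℂ} {z : ℂ} (h : (a + b).denom.eval z = 0) :
    a.denom.eval z = 0 ∨ b.denom.eval z = 0 := by
  obtain ⟨c, hc⟩ := RatFunc.denom_add_dvd a b
  have h2 := congrArg (Polynomial.eval z) hc
  rw [Polynomial.eval_mul, Polynomial.eval_mul, h, zero_mul] at h2
  exact mul_eq_zero.1 h2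

theorem denom_mul_eval {a b : RatFunc ℂ} {z : ℂ} (h : (a * b).denom.eval z = 0) :
    a.denom.eval z = 0 ∨ b.denom.eval z = 0 := by
  obtain ⟨c, hc⟩ := RatFunc.denom_mul_dvd a b
  have h2 := congrArg (Polynomial.eval z) hc
  rw [Polynomial.eval_mul, Polynomial.eval_mul, h, zero_mul] at h2
  exact mul_eq_zero.1 h2

theorem denom_lin {N ν : ℕ} {z : ℂ}
    (h : (1 / (RatFunc.C (N : ℂ) * RatFunc.X + RatFunc.C (ν : ℂ)) : RatFunc ℂ).denom.eval z = 0) :
    (N : ℂ) * z + ν = 0 := by
  have h1 : (1 / (RatFunc.C (N : ℂ) * RatFunc.X + RatFunc.C (ν : ℂ)) : RatFunc ℂ) =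
      algebraMap (Polynomial ℂ) (RatFunc ℂ) 1 /
        algebraMap (Polynomial ℂ) (RatFunc ℂ)
          (Polynomial.C (N : ℂ) * Polynomial.X + Polynomial.C (ν : ℂ)) := by
    simp only [map_one, map_add, map_mul, RatFunc.algebraMap_X, RatFunc.algebraMap_C]
  rw [h1] at h
  obtain ⟨c, hc⟩ := RatFunc.denom_div_dvd (1 : Polynomial ℂ)
    (Polynomial.C (N : ℂ) * Polynomial.X + Polynomial.C (ν : ℂ))
  have h2 := congrArg (Polynomial.eval z) hc
  rw [Polynomial.eval_mul (p := RatFunc.denom _), h, zero_mul] at h2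
  simpa using h2

theorem denom_listProd {l : List (ℕ × ℕ)} {z : ℂ}
    (h : ((l.map (fun q => 1 / (RatFunc.C (q.1 : ℂ) * RatFunc.X + RatFunc.C (q.2 : ℂ)))).prod :
      RatFunc ℂ).denom.eval z = 0) : ∃ q ∈ l, (q.1 : ℂ) * z + q.2 = 0 := by
  induction l with
  | nil => simp at h
  | cons q l ih =>
    rw [List.map_cons, List.prod_cons] at h
    rcases denom_mul_eval h with h | h
    · exact ⟨q, List.mem_cons_self, denom_lin h⟩
    · obtain ⟨q', h1, h2⟩ := ih h
      exact ⟨q', List.mem_cons_of_mem _ h1, h2⟩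

/-- A pole of a twisted zeta function is a candidate pole. -/
theorem pole_cand {g : List QStratum} {e : ℕ} {z : ℂ} (h : (ZQ g e).denom.eval z = 0) :
    ∃ t ∈ g, ∃ q ∈ t.2, (q.1 : ℂ) * z + q.2 = 0 := by
  unfold ZQ at h
  induction g with
  | nil => simp at h
  | cons t g ih =>
    rw [List.map_cons, List.sum_cons] at h
    rcases denom_add_eval h with h | h
    · split_ifs at h with hc
      · rcases denom_mul_eval h with h | h
        · rw [RatFunc.denom_C, Polynomial.eval_one] at h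
          exact absurd h one_ne_zero
        · obtain ⟨q, h1, h2⟩ := denom_listProd h
          exact ⟨t, List.mem_cons_self, q, h1, h2⟩
      · simp at h
    · obtain ⟨t', h1, h2⟩ := ih h
      exact ⟨t', List.mem_cons_of_mem _ h1, h2⟩

/-- There is no pole at a natural number. -/
theorem pole_not_nat {g : List QStratum} (hg : GoodQ g) {e : ℕ} (m : ℕ) :
    (ZQ g e).denom.eval (m : ℂ) ≠ 0 := by
  intro h
  obtain ⟨t, ht, q, hq, h1⟩ := pole_cand h
  have h2 := (hg t ht).2 q hq
  have h3 : q.1 * m + q.2 = 0 := by exact_mod_cast h1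
  omega

end It

end Mono
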