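import Pool.Agent.Helper17.SD.Sum3
import Pool.Agent.Helper17.SD.Desus

/-!
# From `g + w l` to `g`
-/

namespace Mono

namespace SD

open Finset Mono.Comp Mono.It Mono.H3h Polynomial

theorem poly_eq {P Q : Polynomial ℂ} (c : ℝ) (h : ∀ s : ℝ, c < s → P.eval (s : ℂ) = Q.eval (s : ℂ)) :
    P = Q := by
  refine Polynomial.eq_of_infinite_eval_eq P Q ?_
  have h1 : ((fun s : ℝ => (s : ℂ)) '' Set.Ioi c).Infinite :=
    (Set.Ioi_infinite c).image Complex.ofReal_injective.injOn
  refine h1.mono ?_
  rintro _ ⟨s, hs, rfl⟩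
  exact h s hs

theorem good_num {z v : ℂ} {A : RatFunc ℂ} (h : Good z A v) : A.num.eval z = v * A.denom.eval z := by
  have h1 := h.2
  rw [RatFunc.eval, eval2_eq, eval2_eq, div_eq_iff h.1] at h1
  exact h1

theorem num_ne {z : ℂ} {B : RatFunc ℂ} (h : B.denom.eval z = 0) : B.num.eval z ≠ 0 := by
  intro h1
  obtain ⟨u, v, huv⟩ := RatFunc.isCoprime_num_denom B
  have h2 := congrArg (Polynomial.eval z) huv
  rw [Polynomial.eval_add, Polynomial.eval_mul, Polynomial.eval_mul, h, h1] at h2
  simp at h2

/-- The strong monodromy property descends from `g + w l` to `g`. -/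
theorem ts_smc {g₀ g' : List QStratum} {E : Set ℂ} (h0 : GoodQ g₀) (hE : SMCQ g' E)
    (hv : ∀ e : ℕ, 0 < e → ∀ s : ℝ, 0 < s → Good (s : ℂ) (ZQ g' e) ((VV g₀ e s : ℝ) : ℂ)) :
    SMCQ g₀ E := by
  intro e he z hz
  have hexp : ∀ w : ℂ, Complex.exp (2 * Real.pi * Complex.I * (w - 1)) =
      Complex.exp (2 * Real.pi * Complex.I * w) := by
    intro w
    have := Stab.exp_shift (k := 1) w
    simpa using this
  set a := (ZQ g' e).num with ha
  set a' := (ZQ g' e).denom with ha'
  set b := (ZQ g₀ e).num with hb
  set b' := (ZQ g₀ e).denom with hb'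
  have hA : ∀ t : ℝ, 1 < t → a.eval ((t : ℂ) - 1) = ((VV g₀ e (t - 1) : ℝ) : ℂ) *
      a'.eval ((t : ℂ) - 1) := by
    intro t ht
    have h1 := good_num (hv e he (t - 1) (by linarith))
    rw [Complex.ofReal_sub, Complex.ofReal_one] at h1
    exact h1
  have hB : ∀ t : ℝ, 1 < t → b.eval (t : ℂ) = ((RS g₀ e t : ℝ) : ℂ) * b'.eval (t : ℂ) := by
    intro t ht
    exact good_num (good_ZQ h0 e (by linarith))
  set α := a.comp (X - C 1) with hα
  set α' := a'.comp (X - C 1) with hα'
  have eα : ∀ w : ℂ, α.eval w = a.eval (w - 1) := by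
    intro w
    rw [hα, eval_comp, eval_sub, eval_X, eval_C]
  have eα' : ∀ w : ℂ, α'.eval w = a'.eval (w - 1) := by
    intro w
    rw [hα', eval_comp, eval_sub, eval_X, eval_C]
  have hnum : b.eval z ≠ 0 := num_ne hz
  by_cases h : e = 1
  · subst h
    have hid : α * X ^ 2 * b' = (C ((C0 g₀ : ℝ) : ℂ) * b' + (X - 1) * (X + 1) * b) * α' := by
      refine poly_eq 1 fun t ht => ?_
      simp only [eval_mul, eval_add, eval_sub, eval_pow, eval_X, eval_C, eval_one]
      rw [eα, eα', hA t ht, hB t ht]
      have ht0 : (t : ℂ) ≠ 0 := by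
        have : t ≠ 0 := by linarith
        exact_mod_cast this
      have h3 : ((VV g₀ 1 (t - 1) : ℝ) : ℂ) * (t : ℂ) ^ 2 = (C0 g₀ : ℝ) +
          ((t : ℂ) - 1) * (t + 1) * (RS g₀ 1 t : ℝ) := by
        have h4 : VV g₀ 1 (t - 1) * t ^ 2 = C0 g₀ + (t - 1) * (t + 1) * RS g₀ 1 t := by
          unfold VV
          rw [if_pos rfl, show t - 1 + 1 = t by ring, show t - 1 + 2 = t + 1 by ring,
            div_mul_cancel₀ _ (by positivity)]
        exact_mod_cast h4
      linear_combination (a'.eval ((t : ℂ) - 1) * b'.eval (t : ℂ)) * h3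
    by_cases hz1 : z = -1
    · subst hz1
      by_cases h5 : a'.eval ((-1 : ℂ) - 1) = 0
      · rcases hE 1 he _ h5 with h6 | ⟨-, h6, -⟩
        · left
          rwa [hexp] at h6
        · exfalso
          norm_num at h6
      · right
        refine ⟨rfl, rfl, ?_⟩
        by_contra hm
        push Not at hm
        have h6 : (X + 1 : Polynomial ℂ) ^ 2 ∣ b' := by
          have h7 := (Polynomial.le_rootMultiplicity_iff (RatFunc.denom_ne_zero _)).1
            (Nat.succ_le_iff.2 hm)
          have h8 : (X - C (-1) : Polynomial ℂ) = X + 1 := by simp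
          rwa [h8] at h7
        have h7 : (X + 1 : Polynomial ℂ) ^ 2 ∣ (X - 1) * (X + 1) * b * α' := by
          have h8 : (X - 1) * (X + 1) * b * α' = (α * X ^ 2 - C ((C0 g₀ : ℝ) : ℂ) * α') * b' := by
            linear_combination -hid
          rw [h8]
          exact h6.mul_left _
        obtain ⟨c, hc⟩ := h7
        have hX : (X + 1 : Polynomial ℂ) ≠ 0 := by
          have h8 : (X + 1 : Polynomial ℂ) = X - C (-1) := by simp
          rw [h8]
          exact Polynomial.X_sub_C_ne_zero _
        have h9 : (X - 1) * b * α' = (X + 1) * c := by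
          refine mul_left_cancel₀ hX ?_
          linear_combination hc
        have h10 := congrArg (Polynomial.eval (-1)) h9
        simp only [eval_mul, eval_add, eval_sub, eval_X, eval_one, neg_add_cancel, zero_mul,
          mul_eq_zero] at h10
        rcases h10 with (h10 | h10) | h10
        · norm_num at h10
        · exact hnum h10
        · rw [eα'] at h10
          exact h5 h10
    · have hz2 : z ≠ 1 := by
        intro hz2
        rw [hz2] at hz
        have := pole_not_nat h0 (e := 1) 1
        rw [Nat.cast_one] at this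
        exact this hz
      have h3 := congrArg (Polynomial.eval z) hid
      simp only [eval_mul, eval_add, eval_sub, eval_pow, eval_X, eval_C, eval_one] at h3
      rw [hz, mul_zero, mul_zero, zero_add] at h3
      have h4 : α'.eval z = 0 := by
        have h5 : (z - 1) * (z + 1) * b.eval z ≠ 0 :=
          mul_ne_zero (mul_ne_zero (sub_ne_zero.2 hz2) (fun h => hz1 (eq_neg_of_add_eq_zero_left h)))
            hnum
        exact (mul_eq_zero.1 h3.symm).resolve_left h5
      rw [eα'] at h4
      rcases hE 1 he _ h4 with h6 | ⟨-, h6, -⟩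
      · left
        rwa [hexp] at h6
      · exfalso
        have h7 : z = 0 := by linear_combination h6
        rw [h7] at hz
        have := pole_not_nat h0 (e := 1) 0
        rw [Nat.cast_zero] at this
        exact this hz
  · have hid : α * b' = b * α' := by
      refine poly_eq 1 fun t ht => ?_
      simp only [eval_mul]
      rw [eα, eα', hA t ht, hB t ht]
      unfold VV
      rw [if_neg h, show t - 1 + 1 = t by ring]
      ring
    have h3 := congrArg (Polynomial.eval z) hid
    rw [eval_mul, eval_mul, hz, mul_zero] at h3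
    have h4 : α'.eval z = 0 := (mul_eq_zero.1 h3.symm).resolve_left hnum
    rw [eα'] at h4
    rcases hE e he _ h4 with h6 | ⟨h6, -, -⟩
    · left
      rwa [hexp] at h6
    · exact absurd h6 h

end SD

end Mono
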