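import Pool.Agent.Helper4.It.Final
import Pool.Agent.Helper72.Mono.VolHeight

/-!
# The fan of `X_0 + X_1 X_2`
-/

namespace Mono

namespace SD

open Finset Mono.Comp Mono.It

/-- `e_0`. -/
def a0 : Fin 3 → ℤ := ![1, 0, 0]
/-- `e_1 + e_2`. -/
def a12 : Fin 3 → ℤ := ![0, 1, 1]
/-- `e_1`. -/
def a1 : Fin 3 → ℤ := ![0, 1, 0]
/-- `e_2`. -/
def a2 : Fin 3 → ℤ := ![0, 0, 1]

/-- The exponents of `X_0 + X_1 X_2`. -/
def A3 : Finset (Fin 3 → ℤ) := {a0, a12}
/-- The generators of height zero. -/
def Z3 : Finset (Fin 3 → ℤ) := {a1, a2}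
/-- The cone `x_1 ≥ x_2`. -/
def F1 : Finset (Fin 3 → ℤ) := {a0, a12, a1}
/-- The cone `x_1 ≤ x_2`. -/
def F2 : Finset (Fin 3 → ℤ) := {a0, a12, a2}

theorem h0_12 : a0 ≠ a12 := by decide
theorem h0_1 : a0 ≠ a1 := by decide
theorem h0_2 : a0 ≠ a2 := by decide
theorem h12_1 : a12 ≠ a1 := by decide
theorem h12_2 : a12 ≠ a2 := by decide
theorem h1_2 : a1 ≠ a2 := by decide

theorem sumF1 {M : Type*} [AddCommMonoid M] (f : (Fin 3 → ℤ) → M) :
    ∑ u ∈ F1, f u = f a0 + (f a12 + f a1) := by
  unfold F1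
  rw [Finset.sum_insert (by decide), Finset.sum_insert (by decide), Finset.sum_singleton]

theorem sumF2 {M : Type*} [AddCommMonoid M] (f : (Fin 3 → ℤ) → M) :
    ∑ u ∈ F2, f u = f a0 + (f a12 + f a2) := by
  unfold F2
  rw [Finset.sum_insert (by decide), Finset.sum_insert (by decide), Finset.sum_singleton]

theorem indep1 : Indep F1 := by
  have h : LinearIndepOn ℝ (toR (n := 3)) (F1 : Set (Fin 3 → ℤ)) := by
    rw [linearIndepOn_finset_iff]
    intro f hf u hu
    rw [sumF1] at hf
    have e0 := congrFun hf 0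
    have e1 := congrFun hf 1
    have e2 := congrFun hf 2
    simp [a0, a12, a1] at e0 e1 e2
    simp only [F1, Finset.mem_insert, Finset.mem_singleton] at hu
    rcases hu with rfl | rfl | rfl
    · exact e0
    · exact e2
    · have e2' : f a12 = 0 := e2
      have e1' : f a12 + f a1 = 0 := e1
      linarith
  exact h

theorem indep2 : Indep F2 := by
  have h : LinearIndepOn ℝ (toR (n := 3)) (F2 : Set (Fin 3 → ℤ)) := by
    rw [linearIndepOn_finset_iff]
    intro f hf u hu
    rw [sumF2] at hf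
    have e0 := congrFun hf 0
    have e1 := congrFun hf 1
    have e2 := congrFun hf 2
    simp [a0, a12, a2] at e0 e1 e2
    simp only [F2, Finset.mem_insert, Finset.mem_singleton] at hu
    rcases hu with rfl | rfl | rfl
    · exact e0
    · exact e1
    · have e2' : f a12 = 0 := e1
      have e1' : f a12 + f a2 = 0 := e2
      linarith
  exact h

/-- Coordinates in the first cone. -/
noncomputable def c1 (x : Fin 3 → ℝ) : (Fin 3 → ℤ) → ℝ :=
  fun u => if u = a0 then x 0 else if u = a12 then x 2 else if u = a1 then x 1 - x 2 else 0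

/-- Coordinates in the second cone. -/
noncomputable def c2 (x : Fin 3 → ℝ) : (Fin 3 → ℤ) → ℝ :=
  fun u => if u = a0 then x 0 else if u = a12 then x 1 else if u = a2 then x 2 - x 1 else 0

theorem c1_0 (x : Fin 3 → ℝ) : c1 x a0 = x 0 := by simp [c1]
theorem c1_12 (x : Fin 3 → ℝ) : c1 x a12 = x 2 := by simp [c1, h0_12.symm]
theorem c1_1 (x : Fin 3 → ℝ) : c1 x a1 = x 1 - x 2 := by simp [c1, h0_1.symm, h12_1.symm]
theorem c2_0 (x : Fin 3 → ℝ) : c2 x a0 = x 0 := by simp [c2]
theorem c2_12 (x : Fin 3 → ℝ) : c2 x a12 = x 1 := by simp [c2, h0_12.symm]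
theorem c2_2 (x : Fin 3 → ℝ) : c2 x a2 = x 2 - x 1 := by simp [c2, h0_2.symm, h12_2.symm]

theorem crd1 (x : Fin 3 → ℝ) : crd F1 x = c1 x := by
  refine crd_unique indep1 ⟨?_, ?_⟩
  · intro u hu
    simp only [F1, Finset.mem_insert, Finset.mem_singleton, not_or] at hu
    simp [c1, hu.1, hu.2.1, hu.2.2]
  · rw [sumF1, c1_0, c1_12, c1_1]
    funext i
    fin_cases i <;> simp [a0, a12, a1]

theorem crd2 (x : Fin 3 → ℝ) : crd F2 x = c2 x := by
  refine crd_unique indep2 ⟨?_, ?_⟩
  · intro u hu
    simp only [F2, Finset.mem_insert, Finset.mem_singleton, not_or] at hu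
    simp [c2, hu.1, hu.2.1, hu.2.2]
  · rw [sumF2, c2_0, c2_12, c2_2]
    funext i
    fin_cases i <;> simp [a0, a12, a2]

theorem c1_nonneg {x : Fin 3 → ℝ} (h0 : 0 ≤ x 0) (h2 : 0 ≤ x 2) (h : x 2 ≤ x 1) :
    ∀ u, 0 ≤ c1 x u := by
  intro u
  unfold c1
  split_ifs
  · exact h0
  · exact h2
  · linarith
  · exact le_refl _

theorem c2_nonneg {x : Fin 3 → ℝ} (h0 : 0 ≤ x 0) (h2 : 0 ≤ x 1) (h : x 1 ≤ x 2) :
    ∀ u, 0 ≤ c2 x u := by
  intro u
  unfold c2
  split_ifs
  · exact h0
  · exact h2
  · linarith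
  · exact le_refl _

/-- The fan. -/
noncomputable def Φ3 : Fan 3 where
  vert := A3 ∪ Z3
  mx := {F1, F2}
  vert_nonneg := by decide
  mx_sub := by decide
  mx_card := by decide
  mx_indep := by
    intro F hF
    simp only [Finset.mem_insert, Finset.mem_singleton] at hF
    rcases hF with rfl | rfl
    · exact indep1
    · exact indep2
  cover := by
    intro x hx
    rcases le_total (x 2) (x 1) with h | h
    · exact ⟨F1, by simp, by rw [crd1]; exact c1_nonneg (hx 0) (hx 2) h⟩
    · exact ⟨F2, by simp, by rw [crd2]; exact c2_nonneg (hx 0) (hx 1) h⟩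
  inter := by
    intro F hF F' hF' x h h' u hu
    simp only [Finset.mem_insert, Finset.mem_singleton] at hF hF'
    rcases hF with rfl | rfl <;> rcases hF' with rfl | rfl
    · exact crd_of_notMem _ _ hu
    · by_cases h1 : u ∈ F1
      · rw [crd1] at h ⊢
        rw [crd2] at h'
        simp only [F1, F2, Finset.mem_insert, Finset.mem_singleton, not_or] at h1 hu
        rcases h1 with h1 | h1 | h1
        · exact absurd h1 hu.1
        · exact absurd h1 hu.2.1
        · subst h1
          have e1 := h a1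
          have e2 := h' a2
          rw [c1_1] at e1
          rw [c2_2] at e2
          rw [c1_1]
          linarith
      · exact crd_of_notMem _ _ h1
    · by_cases h1 : u ∈ F2
      · rw [crd2] at h ⊢
        rw [crd1] at h'
        simp only [F1, F2, Finset.mem_insert, Finset.mem_singleton, not_or] at h1 hu
        rcases h1 with h1 | h1 | h1
        · exact absurd h1 hu.1
        · exact absurd h1 hu.2.1
        · subst h1
          have e1 := h a2
          have e2 := h' a1
          rw [c2_2] at e1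
          rw [c1_1] at e2
          rw [c2_2]
          linarith
      · exact crd_of_notMem _ _ h1
    · exact crd_of_notMem _ _ hu

theorem sdiff1 : F1 \ Z3 = {a0, a12} := by decide
theorem sdiff2 : F2 \ Z3 = {a0, a12} := by decide

theorem psi1 (x : Fin 3 → ℝ) : psi Z3 F1 x = x 0 + x 2 := by
  unfold psi
  rw [sdiff1, Finset.sum_insert (by decide), Finset.sum_singleton, crd1, c1_0, c1_12]

theorem psi2 (x : Fin 3 → ℝ) : psi Z3 F2 x = x 0 + x 1 := by
  unfold psi
  rw [sdiff2, Finset.sum_insert (by decide), Finset.sum_singleton, crd2, c2_0, c2_12]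

theorem NA3 : NA A3 ![2, 1, 1] = 2 := by
  have h : {z : ℤ | ∃ v ∈ A3, z = ![2, 1, 1] ⬝ᵥ v} = {2} := by
    ext z
    simp only [Set.mem_ofPred_eq, Set.mem_singleton_iff]
    constructor
    · rintro ⟨v, hv, rfl⟩
      simp only [A3, Finset.mem_insert, Finset.mem_singleton] at hv
      rcases hv with rfl | rfl <;> decide
    · rintro rfl
      exact ⟨a0, by decide, by decide⟩
  unfold NA
  rw [h, csInf_singleton]

theorem tri3 : Tri A3 Z3 Φ3 := by
  refine ⟨⟨a0, by decide⟩, by decide, by decide, by decide, rfl, ⟨by decide, ?_, ?_⟩, ?_⟩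
  · intro z hz
    simp only [Z3, Finset.mem_insert, Finset.mem_singleton] at hz
    rcases hz with rfl | rfl
    · exact ⟨1, by decide⟩
    · exact ⟨2, by decide⟩
  · intro F hF
    have hF' : F = F1 ∨ F = F2 := by simpa [Φ3] using hF
    have hv : ∀ u ∈ Φ3.vert \ Z3, u = a0 ∨ u = a12 := by
      intro u hu
      have h1 : u ∈ (A3 ∪ Z3) \ Z3 := hu
      have h2 : (A3 ∪ Z3) \ Z3 = {a0, a12} := by decide
      rw [h2] at h1
      simpa using h1
    rcases hF' with rfl | rfl
    · constructor
      · intro u hu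
        rw [psi1]
        rcases hv u hu with rfl | rfl <;> simp [a0, a12]
      · intro i
        rw [psi1]
        fin_cases i <;> simp
    · constructor
      · intro u hu
        rw [psi2]
        rcases hv u hu with rfl | rfl <;> simp [a0, a12]
      · intro i
        rw [psi2]
        fin_cases i <;> simp
  · intro F hF
    have hF' : F = F1 ∨ F = F2 := by simpa [Φ3] using hF
    refine ⟨![2, 1, 1], by decide, ?_⟩
    rw [NA3]
    rcases hF' with rfl | rfl
    · rw [sdiff1]; decide
    · rw [sdiff2]; decide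

end SD

end Mono
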