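import Pool.Agent.Helper17.SD.WR3
import Pool.Agent.Helper99.It.T6

/-!
# The value of a chart of `g + w l`
-/

namespace Mono

namespace SD

open Finset Filter Topology Mono.Comp Mono.It Mono.Comp.G1

/-- Partial fractions. -/
theorem pf (S : Finset ℝ) (hS : S.Nonempty) (t : ℝ) (ht : ∀ x ∈ S, t + x ≠ 0) :
    ∑ x ∈ S, (∏ y ∈ S.erase x, 1 / (y - x)) * (1 / (t + x)) = ∏ x ∈ S, 1 / (t + x) := by
  have h1 : Set.InjOn (fun x : ℝ => -x) (S : Set ℝ) := fun x _ y _ h => neg_injective h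
  have h2 := Lagrange.eval_interpolate_not_at_node (s := S) (v := fun x : ℝ => -x) (x := t)
    (r := 1) (fun i hi h => ht i hi (by rw [h]; ring))
  rw [Lagrange.interpolate_one h1 hS, Polynomial.eval_one, Lagrange.eval_nodal] at h2
  simp only [Pi.one_apply, mul_one, sub_neg_eq_add, Lagrange.nodalWeight] at h2
  have h3 : ∏ x ∈ S, (t + x) ≠ 0 := Finset.prod_ne_zero_iff.2 ht
  rw [Finset.prod_div_distrib, Finset.prod_const_one, eq_div_iff h3, mul_comm]
  refine Eq.trans ?_ h2.symm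
  congr 1
  refine Finset.sum_congr rfl fun x _ => ?_
  rw [one_div]
  congr 1
  refine Finset.prod_congr rfl fun y _ => ?_
  rw [one_div, neg_add_eq_sub]

/-- The function `K`. -/
noncomputable def KK (β q t P0 Pt : ℝ) : ℝ := β / t * (P0 - Pt) - q * Pt

theorem pf2 (S : Finset ℝ) (hS : S.Nonempty) (hp : ∀ x ∈ S, 0 < x) (t : ℝ) (ht : 0 < t)
    (β q : ℝ) :
    ∑ x ∈ S, (∏ y ∈ S.erase x, 1 / (y - x)) * ((β / x - q) * (1 / (t + x))) =
      KK β q t (∏ x ∈ S, 1 / x) (∏ x ∈ S, 1 / (t + x)) := by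
  have h0 := pf S hS 0 (fun x hx => by have := hp x hx; positivity)
  have h1 := pf S hS t (fun x hx => by have := hp x hx; positivity)
  simp only [zero_add] at h0
  unfold KK
  rw [← h0, ← h1, ← Finset.sum_sub_distrib, Finset.mul_sum, Finset.mul_sum,
    ← Finset.sum_sub_distrib]
  refine Finset.sum_congr rfl fun x hx => ?_
  have h2 := hp x hx
  have h3 : t + x ≠ 0 := by positivity
  generalize (∏ y ∈ S.erase x, 1 / (y - x)) = c
  field_simp
  ring

theorem dds3 (S : Fin 3 → Finset ℝ) (x1 x2 : ℝ) (h1 : S 1 = {x1}) (h2 : S 2 = {x2})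
    (h : (Fin 3 → ℝ) → ℝ) :
    DDS S h = ∑ x ∈ S 0, (∏ y ∈ (S 0).erase x, 1 / (y - x)) * h ![x, x1, x2] := by
  unfold DDS
  refine Finset.sum_bij' (fun f _ => f 0) (fun x _ => ![x, x1, x2]) ?_ ?_ ?_ ?_ ?_
  · intro f hf
    exact Fintype.mem_piFinset.1 hf 0
  · intro x hx
    rw [Fintype.mem_piFinset]
    intro i
    fin_cases i
    · exact hx
    · simp [h1]
    · simp [h2]
  · intro f hf
    rw [Fintype.mem_piFinset] at hf
    have e1 := hf 1
    have e2 := hf 2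
    rw [h1, Finset.mem_singleton] at e1
    rw [h2, Finset.mem_singleton] at e2
    funext i
    fin_cases i
    · rfl
    · exact e1.symm
    · exact e2.symm
  · intro x hx
    rfl
  · intro f hf
    rw [Fintype.mem_piFinset] at hf
    have e1 := hf 1
    have e2 := hf 2
    rw [h1, Finset.mem_singleton] at e1
    rw [h2, Finset.mem_singleton] at e2
    have e3 : f = ![f 0, x1, x2] := by
      funext i
      fin_cases i
      · rfl
      · exact e1
      · exact e2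
    rw [Fin.prod_univ_three, h1, h2, e1, e2]
    simp only [Finset.erase_singleton, Finset.prod_empty, mul_one]
    rw [← e3]

/-- The value of `K` at the nodes `ρ + ε θ`. -/
noncomputable def Kε {n : ℕ} (B : Finset (Fin n)) (β q : ℝ) (ρ θ : Fin n → ℝ) (t ε : ℝ) : ℝ :=
  KK β q t (∏ j ∈ B, 1 / (ρ + ε • θ) j) (∏ j ∈ B, 1 / (t + (ρ + ε • θ) j))

theorem tendsto_lin (a c : ℝ) : Tendsto (fun ε : ℝ => a + ε * c) (𝓝[>] 0) (𝓝 a) := by
  have h : Tendsto (fun ε : ℝ => a + ε * c) (𝓝 0) (𝓝 (a + 0 * c)) :=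
    (continuous_const.add (continuous_id.mul continuous_const)).tendsto 0
  rw [zero_mul, add_zero] at h
  exact h.mono_left nhdsWithin_le_nhds

theorem tendsto_K {n : ℕ} (B : Finset (Fin n)) (β q : ℝ) (ρ θ : Fin n → ℝ) (hρ : ∀ j, 0 < ρ j)
    (t c : ℝ) (ht : 0 < t) :
    Tendsto (fun ε : ℝ => Kε B β q ρ θ (t + ε * c) ε) (𝓝[>] 0) (𝓝 (KK β q t (∏ j ∈ B, 1 / ρ j)
      (∏ j ∈ B, 1 / (t + ρ j)))) := by
  have h1 : Tendsto (fun ε : ℝ => ∏ j ∈ B, 1 / (ρ + ε • θ) j) (𝓝[>] 0)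
      (𝓝 (∏ j ∈ B, 1 / ρ j)) := by
    refine tendsto_finsetProd _ fun j _ => ?_
    exact tendsto_const_nhds.div (tendsto_lin (ρ j) (θ j)) (hρ j).ne'
  have h2 : Tendsto (fun ε : ℝ => ∏ j ∈ B, 1 / (t + ε * c + (ρ + ε • θ) j)) (𝓝[>] 0)
      (𝓝 (∏ j ∈ B, 1 / (t + ρ j))) := by
    refine tendsto_finsetProd _ fun j _ => ?_
    refine tendsto_const_nhds.div ((tendsto_lin t c).add (tendsto_lin (ρ j) (θ j))) ?_
    have := hρ j
    positivity
  unfold Kε KK
  exact ((tendsto_const_nhds.div (tendsto_lin t c) ht.ne').mul (h1.sub h2)).sub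
    (tendsto_const_nhds.mul h2)

/-- The value of a chart of `g + w l`. -/
theorem val3 (hCT : ChartFormulaT) (hG : GenDir) (hZ : ZrealContT) {n : ℕ} {e : ℕ} (he : 0 < e)
    {blk : Fin n → Fin 3} {N : Fin n → ℕ} (hb : Function.Surjective blk) (hN : ∀ j, 0 < N j)
    {T : Fan n} (hAd : Adapted (A3.image (lift blk N)) T) {ρ : Fin n → ℝ} (hρ : ∀ j, 0 < ρ j)
    (a b : Fin n) (ha : ∀ j, blk j = 1 ↔ j = a) (hb' : ∀ j, blk j = 2 ↔ j = b)
    (hNa : blkGcd blk N 1 = 1) (hNb : blkGcd blk N 2 = 1) (hg : 0 < blkGcd blk N 0)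
    (ρa : ρ a = 1) (ρb : ρ b = 1) {s : ℝ} (hs : 0 < s) :
    T6.Val e A3 s blk N T ρ = KK (βT e) (qT e (blkGcd blk N 0)) (s + 1)
      (∏ j ∈ univ.filter (fun j => blk j = 0), 1 / ρ j)
      (∏ j ∈ univ.filter (fun j => blk j = 0), 1 / (s + 1 + ρ j)) := by
  classical
  obtain ⟨θ, hθ1, hθ2⟩ := hG n 3 Φ3 blk ρ hb
  obtain ⟨j0, hj0⟩ := hb 0
  have hBne : (univ.filter (fun j => blk j = 0)).Nonempty := ⟨j0, by simp [hj0]⟩
  set B : Finset (Fin n) := univ.filter (fun j => blk j = 0) with hB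
  have hblka : blk a = 1 := (ha a).2 rfl
  have hblkb : blk b = 2 := (hb' b).2 rfl
  have hsel : ∀ j, blk j = 0 → ![j, a, b] ∈ sel blk := by
    intro j hj
    rw [sel, Finset.mem_filter]
    refine ⟨Finset.mem_univ _, fun i => ?_⟩
    fin_cases i
    · exact hj
    · exact hblka
    · exact hblkb
  have hθ : θ a ≠ θ b := by
    have h1 := (hθ1 _ (hsel j0 hj0)).1 F1 (by simp [Φ3]) a1 (by decide)
    rw [crd1, c1_1] at h1
    exact sub_ne_zero.1 h1
  have hθ' : θ a - θ b ≠ 0 := sub_ne_zero.2 hθ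
  have t1 := T6.tendsto_val hZ e tri3.1 tri3.2.1 hs blk N hN T ρ θ hρ
  -- the value at generic nodes
  set β := βT e with hβ
  set q := qT e (blkGcd blk N 0) with hq
  have hev : ∀ᶠ ε : ℝ in 𝓝[>] 0, T6.Val e A3 s blk N T (ρ + ε • θ) =
      -θ b / ((θ a - θ b) * (1 + ε * θ b)) * Kε B β q ρ θ (s + 1 + ε * θ b) ε +
        θ a / ((θ a - θ b) * (1 + ε * θ a)) * Kε B β q ρ θ (s + 1 + ε * θ a) ε := by
    filter_upwards [hθ2, eventually_pos ρ θ hρ, self_mem_nhdsWithin] with ε g1 g2 g3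
    have g3' : (0 : ℝ) < ε := g3
    rw [T6.val_generic hCT he (by norm_num) tri3 hs hb hN (fun i => rfl) hAd g2 g1]
    set ρ' := ρ + ε • θ with hρ'
    have hx1 : ρ' a = 1 + ε * θ a := by simp [hρ', ρa]
    have hx2 : ρ' b = 1 + ε * θ b := by simp [hρ', ρb]
    have n1 : nodes blk ρ' 1 = {ρ' a} := by
      unfold nodes
      have : (univ.filter (fun j => blk j = 1)) = {a} := by
        ext j
        simp [ha]
      rw [this, Finset.image_singleton]
    have n2 : nodes blk ρ' 2 = {ρ' b} := by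
      unfold nodes
      have : (univ.filter (fun j => blk j = 2)) = {b} := by
        ext j
        simp [hb']
      rw [this, Finset.image_singleton]
    rw [dds3 _ _ _ n1 n2]
    have hab : ρ' a ≠ ρ' b := by
      have h1 := (g1.1 _ (hsel j0 hj0)).1 F1 (by simp [Φ3]) a1 (by decide)
      rw [crd1, c1_1] at h1
      exact sub_ne_zero.1 h1
    have pa := g2 a
    have pb := g2 b
    have hS : ∀ x ∈ nodes blk ρ' 0, 0 < x := by
      intro x hx
      obtain ⟨j, -, rfl⟩ := Finset.mem_image.1 hx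
      exact g2 j
    have hSne : (nodes blk ρ' 0).Nonempty := hBne.image _
    have hinj : Set.InjOn ρ' (B : Set (Fin n)) := by
      intro j hj j' hj' h
      by_contra hne
      have e1 : blk j = 0 := by simpa [hB] using hj
      have e2 : blk j' = 0 := by simpa [hB] using hj'
      exact g1.2 j j' hne (by rw [e1, e2]) h
    have hK : ∀ t : ℝ, 0 < t → ∑ x ∈ nodes blk ρ' 0, (∏ y ∈ (nodes blk ρ' 0).erase x, 1 / (y - x)) *
        ((β / x - q) * (1 / (t + x))) = Kε B β q ρ θ t ε := by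
      intro t ht
      rw [pf2 _ hSne hS t ht]
      unfold Kε nodes
      rw [Finset.prod_image hinj, Finset.prod_image hinj]
    have hterm : ∀ x ∈ nodes blk ρ' 0, (∏ y ∈ (nodes blk ρ' 0).erase x, 1 / (y - x)) *
        WR Φ3 (vT e fun i => blkGcd blk N i) Z3 s ![x, ρ' a, ρ' b] =
        (ρ' a - ρ' b)⁻¹ * ((1 / ρ' b - 1) * ((∏ y ∈ (nodes blk ρ' 0).erase x, 1 / (y - x)) *
          ((β / x - q) * (1 / (s + ρ' b + x)))) -
          (1 / ρ' a - 1) * ((∏ y ∈ (nodes blk ρ' 0).erase x, 1 / (y - x)) *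
          ((β / x - q) * (1 / (s + ρ' a + x))))) := by
      intro x hx
      have hx0 := hS x hx
      rw [WR3 e hg hNa hNb s _ (by simpa using hx0.ne') (by simpa using pa.ne')
        (by simpa using pb.ne') (by simpa using hab) (by simp; positivity) (by simp; positivity)]
      simp only [Matrix.cons_val_zero, Matrix.cons_val_one, Matrix.cons_val]
      rw [show s + ρ' b + x = s + (x + ρ' b) by ring, show s + ρ' a + x = s + (x + ρ' a) by ring]
      ring
    rw [Finset.sum_congr rfl hterm, ← Finset.mul_sum, Finset.sum_sub_distrib, ← Finset.mul_sum,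
      ← Finset.mul_sum, hK _ (by positivity), hK _ (by positivity), hx1, hx2]
    have q1 : (1 : ℝ) + ε * θ a ≠ 0 := by rw [← hx1]; exact pa.ne'
    have q2 : (1 : ℝ) + ε * θ b ≠ 0 := by rw [← hx2]; exact pb.ne'
    rw [show s + (1 + ε * θ a) = s + 1 + ε * θ a by ring,
      show s + (1 + ε * θ b) = s + 1 + ε * θ b by ring]
    generalize Kε B β q ρ θ (s + 1 + ε * θ b) ε = k1
    generalize Kε B β q ρ θ (s + 1 + ε * θ a) ε = k2
    rw [show (1 + ε * θ a - (1 + ε * θ b)) = ε * (θ a - θ b) by ring]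
    field_simp
    ring
  have t2 : Tendsto (fun ε : ℝ =>
      -θ b / ((θ a - θ b) * (1 + ε * θ b)) * Kε B β q ρ θ (s + 1 + ε * θ b) ε +
        θ a / ((θ a - θ b) * (1 + ε * θ a)) * Kε B β q ρ θ (s + 1 + ε * θ a) ε) (𝓝[>] 0)
      (𝓝 (-θ b / ((θ a - θ b) * 1) * KK β q (s + 1) (∏ j ∈ B, 1 / ρ j)
        (∏ j ∈ B, 1 / (s + 1 + ρ j)) + θ a / ((θ a - θ b) * 1) * KK β q (s + 1)
        (∏ j ∈ B, 1 / ρ j) (∏ j ∈ B, 1 / (s + 1 + ρ j)))) := by
    refine Tendsto.add (Tendsto.mul ?_ (tendsto_K B β q ρ θ hρ (s + 1) (θ b) (by positivity)))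
      (Tendsto.mul ?_ (tendsto_K B β q ρ θ hρ (s + 1) (θ a) (by positivity)))
    · exact tendsto_const_nhds.div (tendsto_const_nhds.mul (tendsto_lin 1 (θ b)))
        (by simpa using hθ')
    · exact tendsto_const_nhds.div (tendsto_const_nhds.mul (tendsto_lin 1 (θ a)))
        (by simpa using hθ')
  have h3 := tendsto_nhds_unique (t1.congr' hev) t2
  rw [h3]
  generalize KK β q (s + 1) (∏ j ∈ B, 1 / ρ j) (∏ j ∈ B, 1 / (s + 1 + ρ j)) = k
  field_simp
  ring

end SD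

end Mono
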