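import Pool.Agent.Helper17.SD.Chart3
import Pool.Agent.Helper32.It.C2

/-!
# The zeta functions of `g + w l`
-/

namespace Mono

namespace SD

open Finset Filter Topology Mono.Comp Mono.It Mono.Comp.G9 Mono.H3h Mono.It.C2

/-- The strata of a coordinate. -/
def crdQ : List QStratum := [(1, [(1, 1)])]

open Classical in
/-- The value of `ZQ g e` at `t`. -/
noncomputable def RS (g : List QStratum) (e : ℕ) (t : ℝ) : ℝ :=
  ∑ l : Fin g.length, if ∀ q ∈ (g.get l).2, e ∣ q.1 then ((g.get l).1 : ℝ) * It (g.get l).2 t else 0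

/-- The value of the zeta function at zero. -/
noncomputable def C0 (g : List QStratum) : ℝ :=
  ∑ l : Fin g.length, ((g.get l).1 : ℝ) * I0 (g.get l).2

theorem good_listProd {z : ℂ} {l : List (ℕ × ℕ)} {t : ℝ} (hz : z = (t : ℂ)) (ht : 0 < t)
    (hp : ∀ q ∈ l, 0 < q.1 ∧ 0 < q.2) :
    Good z ((l.map (fun q => 1 / (RatFunc.C (q.1 : ℂ) * RatFunc.X + RatFunc.C (q.2 : ℂ)))).prod)
      ((It l t : ℝ) : ℂ) := by
  induction l with
  | nil => simpa [It] using good_one
  | cons q l ih =>
    have h1 := ih fun q hq => hp q (List.mem_cons_of_mem _ hq)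
    have h2 := hp q List.mem_cons_self
    have h6 : (0 : ℝ) < q.1 := by exact_mod_cast h2.1
    have h7 : (0 : ℝ) < q.2 := by exact_mod_cast h2.2
    rw [List.map_cons, List.prod_cons]
    have h3 : It (q :: l) t = ((q.1 : ℝ) * t + q.2)⁻¹ * It l t := by
      simp [It]
    rw [h3, Complex.ofReal_mul]
    refine Good.mul ?_ h1
    have h4 : Good z (RatFunc.C (q.1 : ℂ) * RatFunc.X + RatFunc.C (q.2 : ℂ))
        ((q.1 : ℂ) * z + (q.2 : ℂ)) := ((good_C _).mul good_X).add (good_C _)
    have h5 : (q.1 : ℂ) * z + (q.2 : ℂ) = (((q.1 : ℝ) * t + q.2 : ℝ) : ℂ) := by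
      rw [hz]
      push_cast
      ring
    have h8 : ((q.1 : ℝ) * t + q.2 : ℝ) ≠ 0 := by positivity
    refine ((good_one (z := z)).div h4 ?_).congr ?_
    · rw [h5]
      exact_mod_cast h8
    · rw [h5, one_div, Complex.ofReal_inv]

theorem good_ZQ {g : List QStratum} (hg : GoodQ g) (e : ℕ) {t : ℝ} (ht : 0 < t) :
    Good (t : ℂ) (ZQ g e) ((RS g e t : ℝ) : ℂ) := by
  classical
  have h1 : ZQ g e = ∑ l : Fin g.length, (if ∀ q ∈ (g.get l).2, e ∣ q.1 then
      RatFunc.C ((g.get l).1 : ℂ) * ((g.get l).2.map (fun q =>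
        1 / (RatFunc.C (q.1 : ℂ) * RatFunc.X + RatFunc.C (q.2 : ℂ)))).prod else 0) :=
    (Fin.sum_univ_fun_getElem g _).symm
  rw [h1]
  unfold RS
  rw [Complex.ofReal_sum]
  refine good_sum _ _ _ fun l _ => ?_
  split_ifs with h
  · rw [Complex.ofReal_mul]
    refine Good.mul ((good_C _).congr ?_) (good_listProd rfl ht (hg _ (List.get_mem _ _)).2)
    push_cast
    rfl
  · rw [Complex.ofReal_zero]
    exact good_zero

section sum

variable {g : Fin 3 → List QStratum}

theorem get_crd {i : Fin 3} (h : g i = crdQ) (l : Fin (g i).length) :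
    (g i).get l = (1, [(1, 1)]) := by
  have h1 : ∀ t ∈ g i, t = (1, [(1, 1)]) := by
    rw [h]
    intro t ht
    exact List.mem_singleton.1 ht
  exact h1 _ (List.get_mem _ _)

theorem sum_I {M : Type*} [AddCommMonoid M] (h1 : g 1 = crdQ) (h2 : g 2 = crdQ)
    (f : Fin (g 0).length → M) :
    ∑ I : (i : Fin 3) → Fin (g i).length, f (I 0) = ∑ l, f l := by
  have l1 : (g 1).length = 1 := by rw [h1]; rfl
  have l2 : (g 2).length = 1 := by rw [h2]; rfl
  refine Fintype.sum_bijective (fun I => I 0) ⟨?_, ?_⟩ _ _ (fun _ => rfl)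
  · intro I I' h
    funext i
    fin_cases i
    · exact h
    · apply Fin.ext
      have a1 := (I 1).2
      have a2 := (I' 1).2
      show ((I 1 : Fin _) : ℕ) = (I' 1 : Fin _)
      omega
    · apply Fin.ext
      have a1 := (I 2).2
      have a2 := (I' 2).2
      show ((I 2 : Fin _) : ℕ) = (I' 2 : Fin _)
      omega
  · intro l
    have hl : ∀ i, 0 < (g i).length := by
      intro i
      fin_cases i
      · exact (Nat.zero_le _).trans_lt l.2
      · show 0 < (g 1).length
        omega
      · show 0 < (g 2).length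
        omega
    exact ⟨Function.update (fun i => ⟨0, hl i⟩) 0 l, by simp⟩

/-- The value of the zeta functions of `g + w l`. -/
noncomputable def VV (g : List QStratum) (e : ℕ) (s : ℝ) : ℝ :=
  if e = 1 then (C0 g + s * (s + 2) * RS g 1 (s + 1)) / (s + 1) ^ 2 else RS g e (s + 1)

theorem ts_eval (hCT : ChartFormulaT) (hG : GenDir) (hZ : ZrealContT) (hE : ZEvalT)
    (h0 : GoodQ (g 0)) (h1 : g 1 = crdQ) (h2 : g 2 = crdQ)
    (T : ∀ I : (i : Fin 3) → Fin (g i).length, Fan (dimD fun i => ((g i).get (I i)).2))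
    (hT : ∀ I, Adapted (chartA A3 fun i => ((g i).get (I i)).2) (T I)) {e : ℕ} (he : 0 < e)
    {s : ℝ} (hs : 0 < s) : Good (s : ℂ) (ZTs A3 g T e) ((VV (g 0) e s : ℝ) : ℂ) := by
  classical
  have hgd : ∀ i, GoodQ (g i) := by
    intro i
    have hc : GoodQ crdQ := by
      intro t ht
      have ht' : t = (1, [(1, 1)]) := List.mem_singleton.1 ht
      subst ht'
      exact ⟨by simp, by intro q hq; have : q = (1, 1) := List.mem_singleton.1 hq; subst this; exact ⟨one_pos, one_pos⟩⟩
    fin_cases i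
    · exact h0
    · show GoodQ (g 1)
      rw [h1]; exact hc
    · show GoodQ (g 2)
      rw [h2]; exact hc
  have hgood : Good (s : ℂ) (ZTs A3 g T e)
      ((∑ I, (∏ i, (((g i).get (I i)).1 : ℝ)) * ZrealT e (nuR (nuD fun i => ((g i).get (I i)).2))
        (chartA A3 fun i => ((g i).get (I i)).2) (T I) s : ℝ) : ℂ) := by
    unfold ZTs
    rw [Complex.ofReal_sum]
    refine good_sum _ _ _ fun I _ => ?_
    rw [Complex.ofReal_mul]
    refine Good.mul ?_ ?_
    · refine (good_C _).congr ?_
      push_cast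
      rfl
    · refine hE _ _ _ _ _ ?_ ?_ s hs
      · intro j
        exact ((hgd _ _ (List.get_mem _ _)).2 _ (List.get_mem _ _)).2
      · intro v hv j
        obtain ⟨u, hu, rfl⟩ := Finset.mem_image.1 hv
        exact mul_nonneg (by positivity) (tri3.2.1 u hu _)
  refine hgood.congr ?_
  congr 1
  let f : Fin (g 0).length → ℝ := fun l => (((g 0).get l).1 : ℝ) * (if e = 1 then
        (I0 ((g 0).get l).2 + s * (s + 2) * It ((g 0).get l).2 (s + 1)) / (s + 1) ^ 2 else
        (if ∀ q ∈ ((g 0).get l).2, e ∣ q.1 then It ((g 0).get l).2 (s + 1) else 0))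
  have hI : ∀ I : (i : Fin 3) → Fin (g i).length,
      (∏ i, (((g i).get (I i)).1 : ℝ)) * ZrealT e (nuR (nuD fun i => ((g i).get (I i)).2))
        (chartA A3 fun i => ((g i).get (I i)).2) (T I) s = f (I 0) := by
    intro I
    have hg0 := h0 _ (List.get_mem (g 0) (I 0))
    have hc := chart3 hCT hG hZ he (fun i => ((g i).get (I i)).2) hg0.1 hg0.2
      (by rw [get_crd h1]) (by rw [get_crd h2]) (T I) (hT I) hs
    rw [qT_eq] at hc
    have hχ : ∏ i, (((g i).get (I i)).1 : ℝ) = (((g 0).get (I 0)).1 : ℝ) := by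
      rw [Fin.prod_univ_three, get_crd h1, get_crd h2]
      simp
    rw [hχ]
    show _ = (((g 0).get (I 0)).1 : ℝ) * _
    congr 1
    generalize I0 ((g 0).get (I 0)).2 = i0 at hc ⊢
    generalize It ((g 0).get (I 0)).2 (s + 1) = i1 at hc ⊢
    by_cases h : e = 1
    · subst h
      rw [if_pos rfl]
      rw [if_pos (fun q _ => one_dvd _)] at hc
      simp only [αT, βT, γT, if_true] at hc
      rw [eq_div_iff (by positivity)]
      have h3 : (s + 1) ≠ 0 := by positivity
      field_simp at hc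
      linear_combination hc
    · rw [if_neg h]
      simp only [αT, βT, γT, if_neg h] at hc
      split_ifs at hc ⊢ with h4
      · linear_combination hc
      · linear_combination hc
  refine (Finset.sum_congr rfl fun I _ => hI I).trans ((sum_I h1 h2 f).trans ?_)
  simp only [f]
  unfold VV RS C0
  by_cases h : e = 1
  · simp only [if_pos h]
    rw [Finset.mul_sum, ← Finset.sum_add_distrib, Finset.sum_div]
    refine Finset.sum_congr rfl fun l _ => ?_
    rw [if_pos (fun q _ => one_dvd _)]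
    ring
  · simp only [if_neg h]
    refine Finset.sum_congr rfl fun l _ => ?_
    split_ifs
    · rfl
    · rw [mul_zero]

end sum

end SD

end Mono
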