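import Pool.Agent.Helper17.SD.Fan3

/-!
# The function `W` of the fan of `X_0 + X_1 X_2`
-/

namespace Mono

namespace SD

open Finset Mono.Comp Mono.It MvPolynomial

theorem expo3 : expo (X 0 + X 1 * X 2 : MvPolynomial (Fin 3) ℂ) = A3 := by
  classical
  have hne : (Finsupp.single 0 1 : Fin 3 →₀ ℕ) ≠ Finsupp.single 1 1 + Finsupp.single 2 1 := by
    intro h
    have h1 := DFunLike.congr_fun h 0
    simp at h1
  have h1 : (X 0 + X 1 * X 2 : MvPolynomial (Fin 3) ℂ).support =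
      {Finsupp.single 0 1, Finsupp.single 1 1 + Finsupp.single 2 1} := by
    have h2 : (X 1 * X 2 : MvPolynomial (Fin 3) ℂ) =
        monomial (Finsupp.single 1 1 + Finsupp.single 2 1) 1 := by
      rw [X, X, monomial_mul, one_mul]
    ext d
    rw [mem_support_iff, h2, X, coeff_add, coeff_monomial, coeff_monomial, Finset.mem_insert,
      Finset.mem_singleton]
    by_cases e1 : Finsupp.single 0 1 = d
    · subst e1
      simp [hne.symm]
    · by_cases e2 : Finsupp.single 1 1 + Finsupp.single 2 1 = d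
      · subst e2
        simp [hne]
      · simp [e1, e2, Ne.symm e1, Ne.symm e2]
  unfold expo
  rw [h1, Finset.image_insert, Finset.image_singleton]
  have e1 : (fun i => ((Finsupp.single 0 1 : Fin 3 →₀ ℕ) i : ℤ)) = a0 := by
    funext i
    fin_cases i <;> simp [a0]
  have e2 : (fun i => ((Finsupp.single 1 1 + Finsupp.single 2 1 : Fin 3 →₀ ℕ) i : ℤ)) = a12 := by
    funext i
    fin_cases i <;> simp [a12]
  rw [e1, e2]
  rfl

theorem X3_ne : (X 0 + X 1 * X 2 : MvPolynomial (Fin 3) ℂ) ≠ 0 := by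
  intro h
  have h1 := expo3
  rw [h] at h1
  have h2 : expo (0 : MvPolynomial (Fin 3) ℂ) = ∅ := by simp [expo]
  rw [h2] at h1
  exact absurd h1.symm (by decide)

theorem X3_coeff : (X 0 + X 1 * X 2 : MvPolynomial (Fin 3) ℂ).coeff 0 = 0 := by
  rw [coeff_add, coeff_zero_X, coeff_mul]
  simp [coeff_zero_X]

theorem idx_top {n : ℕ} {B : Set (Fin n → ℤ)} (h : AddSubgroup.closure B = ⊤) : idx B = 1 := by
  unfold idx
  rw [h, AddSubgroup.relIndex_top_left]

theorem mem_clos3 {H : AddSubgroup (Fin 3 → ℤ)} (h0 : a0 ∈ H) (h1 : a1 ∈ H) (h2 : a2 ∈ H) :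
    H = ⊤ := by
  rw [eq_top_iff]
  intro x _
  have hx : x = x 0 • a0 + (x 1 • a1 + x 2 • a2) := by
    funext i
    fin_cases i <;> simp [a0, a1, a2]
  rw [hx]
  exact H.add_mem (H.zsmul_mem h0 _) (H.add_mem (H.zsmul_mem h1 _) (H.zsmul_mem h2 _))

theorem idx1 : idx (F1 : Set (Fin 3 → ℤ)) = 1 := by
  refine idx_top (mem_clos3 ?_ ?_ ?_)
  · exact AddSubgroup.subset_closure (by simp [F1])
  · exact AddSubgroup.subset_closure (by simp [F1])
  · have h : a2 = a12 - a1 := by decide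
    rw [h]
    exact AddSubgroup.sub_mem _ (AddSubgroup.subset_closure (by simp [F1]))
      (AddSubgroup.subset_closure (by simp [F1]))

theorem idx2 : idx (F2 : Set (Fin 3 → ℤ)) = 1 := by
  refine idx_top (mem_clos3 ?_ ?_ ?_)
  · exact AddSubgroup.subset_closure (by simp [F2])
  · have h : a1 = a12 - a2 := by decide
    rw [h]
    exact AddSubgroup.sub_mem _ (AddSubgroup.subset_closure (by simp [F2]))
      (AddSubgroup.subset_closure (by simp [F2]))
  · exact AddSubgroup.subset_closure (by simp [F2])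

theorem idx_zero' {n : ℕ} {B : Set (Fin n → ℤ)} (h : AddSubgroup.closure B = ⊥) : idx B = 1 := by
  unfold idx
  rw [h, AddSubgroup.relIndex_bot_left]
  have h1 : sat B = ⊥ := by
    rw [eq_bot_iff]
    rintro x ⟨k, hk, hx⟩
    rw [h, AddSubgroup.mem_bot] at hx
    rw [AddSubgroup.mem_bot]
    exact (smul_eq_zero.1 hx).resolve_left hk
  rw [h1]
  exact Nat.card_unique

theorem vol_empty' {n : ℕ} : vol (∅ : Finset (Fin n → ℤ)) = 1 := by
  refine idx_zero' ?_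
  have h2 : {x : Fin n → ℤ | ∃ u ∈ (∅ : Finset (Fin n → ℤ)),
      ∃ v ∈ (∅ : Finset (Fin n → ℤ)), x = u - v} = ∅ := by
    ext x
    simp
  rw [h2, AddSubgroup.closure_empty]

theorem vol_single' {n : ℕ} (p : Fin n → ℤ) : vol ({p} : Finset (Fin n → ℤ)) = 1 := by
  refine idx_zero' ?_
  have h1 : {x : Fin n → ℤ | ∃ u ∈ ({p} : Finset (Fin n → ℤ)),
      ∃ v ∈ ({p} : Finset (Fin n → ℤ)), x = u - v} = {0} := by
    ext x
    simp only [Set.mem_ofPred_eq, Finset.mem_singleton, Set.mem_singleton_iff]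
    constructor
    · rintro ⟨u, rfl, v, rfl, rfl⟩
      simp
    · rintro rfl
      exact ⟨p, rfl, p, rfl, by simp⟩
  rw [h1, AddSubgroup.closure_singleton_zero]

theorem latDist_eq {n : ℕ} {τ : Finset (Fin n → ℤ)} {g : ℕ} (hg : 0 < g)
    (h1 : ∃ k : Fin n → ℤ, ∀ u ∈ τ, k ⬝ᵥ u = (g : ℤ))
    (h2 : ∀ (N : ℕ) (k : Fin n → ℤ), 0 < N → (∀ u ∈ τ, k ⬝ᵥ u = (N : ℤ)) → g ≤ N) :
    latDist τ = g := by
  unfold latDist
  refine le_antisymm (Nat.sInf_le ⟨hg, h1⟩) ?_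
  have hne : {N : ℕ | 0 < N ∧ ∃ k : Fin n → ℤ, ∀ u ∈ τ, k ⬝ᵥ u = (N : ℤ)}.Nonempty := ⟨g, hg, h1⟩
  obtain ⟨h3, k, h4⟩ := Nat.sInf_mem hne
  exact h2 _ k h3 h4

section D

variable (D : Fin 3 → ℕ)

theorem img_empty : (∅ : Finset (Fin 3 → ℤ)).image (fun u i => (D i : ℤ) * u i) = ∅ := rfl

theorem D0 : (fun i => (D i : ℤ) * a0 i) = ![(D 0 : ℤ), 0, 0] := by
  funext i
  fin_cases i <;> simp [a0]

theorem D12 (h1 : D 1 = 1) (h2 : D 2 = 1) : (fun i => (D i : ℤ) * a12 i) = a12 := by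
  funext i
  fin_cases i <;> simp [a12, h1, h2]

variable {D}

theorem lat_empty : latDist ((∅ : Finset (Fin 3 → ℤ)).image (fun u i => (D i : ℤ) * u i)) = 1 := by
  rw [img_empty]
  exact latDist_eq one_pos ⟨0, by simp⟩ fun N _ hN _ => hN

theorem lat_0 (h0 : 0 < D 0) :
    latDist (({a0} : Finset (Fin 3 → ℤ)).image (fun u i => (D i : ℤ) * u i)) = D 0 := by
  rw [Finset.image_singleton, D0]
  refine latDist_eq h0 ⟨![1, 0, 0], ?_⟩ ?_
  · intro u hu
    rw [Finset.mem_singleton] at hu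
    subst hu
    simp
  · intro N k hN hk
    have h1 := hk _ (Finset.mem_singleton_self _)
    simp at h1
    have h2 : (D 0 : ℤ) ∣ (N : ℤ) := ⟨Matrix.vecHead k, by rw [← h1]; ring⟩
    exact Nat.le_of_dvd hN (by exact_mod_cast h2)

theorem lat_12 (h1 : D 1 = 1) (h2 : D 2 = 1) :
    latDist (({a12} : Finset (Fin 3 → ℤ)).image (fun u i => (D i : ℤ) * u i)) = 1 := by
  rw [Finset.image_singleton, D12 D h1 h2]
  refine latDist_eq one_pos ⟨![0, 1, 0], ?_⟩ fun N _ hN _ => hN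
  intro u hu
  rw [Finset.mem_singleton] at hu
  subst hu
  decide

theorem lat_012 (h0 : 0 < D 0) (h1 : D 1 = 1) (h2 : D 2 = 1) :
    latDist (({a0, a12} : Finset (Fin 3 → ℤ)).image (fun u i => (D i : ℤ) * u i)) = D 0 := by
  rw [Finset.image_insert, Finset.image_singleton, D0, D12 D h1 h2]
  refine latDist_eq h0 ⟨![1, (D 0 : ℤ), 0], ?_⟩ ?_
  · intro u hu
    rw [Finset.mem_insert, Finset.mem_singleton] at hu
    rcases hu with rfl | rfl
    · simp
    · simp [a12]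
  · intro N k hN hk
    have h1 := hk _ (Finset.mem_insert_self _ _)
    simp at h1
    have h2 : (D 0 : ℤ) ∣ (N : ℤ) := ⟨Matrix.vecHead k, by rw [← h1]; ring⟩
    exact Nat.le_of_dvd hN (by exact_mod_cast h2)

theorem vG_empty : vG D ∅ = 1 := by
  unfold vG
  rw [img_empty, vol_empty']
  simp

theorem vG_single (p : Fin 3 → ℤ) : vG D {p} = 1 := by
  unfold vG
  rw [Finset.image_singleton, vol_single']
  simp

theorem vG_012 (h1 : D 1 = 1) (h2 : D 2 = 1) : vG D {a0, a12} = 1 := by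
  unfold vG
  rw [Finset.image_insert, Finset.image_singleton, D0, D12 D h1 h2, Finset.pair_comm,
    volHeight 3 {![(D 0 : ℤ), 0, 0]} a12 1 ?_ (by decide), vol_single']
  · simp
  · intro u hu
    rw [Finset.mem_singleton] at hu
    subst hu
    rfl

open Classical in
/-- `-q`. -/
noncomputable def qT (e : ℕ) (g : ℕ) : ℝ := if e ∣ g then 1 else 0

theorem dvd_one_iff (e : ℕ) : (if e ∣ 1 then (1 : ℝ) else 0) = βT e := by
  unfold βT
  simp only [Nat.dvd_one]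

theorem vT_empty (e : ℕ) : vT e D ∅ = βT e := by
  unfold vT
  rw [lat_empty, vG_empty, dvd_one_iff]

theorem vT_0 (e : ℕ) (h0 : 0 < D 0) : vT e D {a0} = qT e (D 0) := by
  unfold vT qT
  rw [lat_0 h0, vG_single]

theorem vT_12 (e : ℕ) (h1 : D 1 = 1) (h2 : D 2 = 1) : vT e D {a12} = βT e := by
  unfold vT
  rw [lat_12 h1 h2, vG_single, dvd_one_iff]

theorem vT_012 (e : ℕ) (h0 : 0 < D 0) (h1 : D 1 = 1) (h2 : D 2 = 1) :
    vT e D {a0, a12} = qT e (D 0) := by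
  unfold vT qT
  rw [lat_012 h0 h1 h2, vG_012 h1 h2]

end D

theorem pw {M : Type*} [AddCommMonoid M] (f : Finset (Fin 3 → ℤ) → M) :
    ∑ τ ∈ ({a0, a12} : Finset (Fin 3 → ℤ)).powerset, f τ =
      f ∅ + (f {a0} + (f {a12} + f {a0, a12})) := by
  have h : ({a0, a12} : Finset (Fin 3 → ℤ)).powerset = {∅, {a0}, {a12}, {a0, a12}} := by decide
  rw [h, Finset.sum_insert (by decide), Finset.sum_insert (by decide),
    Finset.sum_insert (by decide), Finset.sum_singleton]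

theorem p1_0 {f : (Fin 3 → ℤ) → ℝ} : ∏ u ∈ F1 \ ∅, f u = f a0 * (f a12 * f a1) := by
  have h : F1 \ ∅ = {a0, a12, a1} := by decide
  rw [h, Finset.prod_insert (by decide), Finset.prod_insert (by decide), Finset.prod_singleton]

theorem p1_1 {f : (Fin 3 → ℤ) → ℝ} : ∏ u ∈ F1 \ {a0}, f u = f a12 * f a1 := by
  have h : F1 \ {a0} = {a12, a1} := by decide
  rw [h, Finset.prod_insert (by decide), Finset.prod_singleton]

theorem p1_2 {f : (Fin 3 → ℤ) → ℝ} : ∏ u ∈ F1 \ {a12}, f u = f a0 * f a1 := by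
  have h : F1 \ {a12} = {a0, a1} := by decide
  rw [h, Finset.prod_insert (by decide), Finset.prod_singleton]

theorem p1_3 {f : (Fin 3 → ℤ) → ℝ} : ∏ u ∈ F1 \ {a0, a12}, f u = f a1 := by
  have h : F1 \ {a0, a12} = {a1} := by decide
  rw [h, Finset.prod_singleton]

theorem p2_0 {f : (Fin 3 → ℤ) → ℝ} : ∏ u ∈ F2 \ ∅, f u = f a0 * (f a12 * f a2) := by
  have h : F2 \ ∅ = {a0, a12, a2} := by decide
  rw [h, Finset.prod_insert (by decide), Finset.prod_insert (by decide), Finset.prod_singleton]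

theorem p2_1 {f : (Fin 3 → ℤ) → ℝ} : ∏ u ∈ F2 \ {a0}, f u = f a12 * f a2 := by
  have h : F2 \ {a0} = {a12, a2} := by decide
  rw [h, Finset.prod_insert (by decide), Finset.prod_singleton]

theorem p2_2 {f : (Fin 3 → ℤ) → ℝ} : ∏ u ∈ F2 \ {a12}, f u = f a0 * f a2 := by
  have h : F2 \ {a12} = {a0, a2} := by decide
  rw [h, Finset.prod_insert (by decide), Finset.prod_singleton]

theorem p2_3 {f : (Fin 3 → ℤ) → ℝ} : ∏ u ∈ F2 \ {a0, a12}, f u = f a2 := by
  have h : F2 \ {a0, a12} = {a2} := by decide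
  rw [h, Finset.prod_singleton]

/-- The function `W`. -/
theorem WR3 {D : Fin 3 → ℕ} (e : ℕ) (h0 : 0 < D 0) (h1 : D 1 = 1) (h2 : D 2 = 1) (s : ℝ)
    (w : Fin 3 → ℝ) (w0 : w 0 ≠ 0) (w1 : w 1 ≠ 0) (w2 : w 2 ≠ 0) (w12 : w 1 ≠ w 2)
    (t1 : s + (w 0 + w 1) ≠ 0) (t2 : s + (w 0 + w 2) ≠ 0) :
    WR Φ3 (vT e D) Z3 s w = (w 1 - w 2)⁻¹ * ((βT e / w 0 - qT e (D 0)) *
      ((1 / w 2 - 1) / (s + (w 0 + w 2)) - (1 / w 1 - 1) / (s + (w 0 + w 1)))) := by
  have hm : Φ3.mx = {F1, F2} := rfl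
  have h12 : w 1 - w 2 ≠ 0 := sub_ne_zero.2 w12
  have h21 : w 2 - w 1 ≠ 0 := sub_ne_zero.2 (Ne.symm w12)
  unfold WR
  rw [hm, Finset.sum_insert (by decide), Finset.sum_singleton]
  unfold WtermR
  rw [sdiff1, sdiff2, pw, pw, idx1, idx2, psi1, psi2, vT_empty, vT_0 e h0, vT_12 e h1 h2,
    vT_012 e h0 h1 h2, p1_0, p1_1, p1_2, p1_3, p2_0, p2_1, p2_2, p2_3, crd1, crd2, c1_0, c1_12,
    c1_1, c2_0, c2_12, c2_2]
  have k0 : (∅ : Finset (Fin 3 → ℤ)).card = 0 := rfl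
  have k1 : ({a0} : Finset (Fin 3 → ℤ)).card = 1 := rfl
  have k2 : ({a12} : Finset (Fin 3 → ℤ)).card = 1 := rfl
  have k3 : ({a0, a12} : Finset (Fin 3 → ℤ)).card = 2 := by decide
  rw [k0, k1, k2, k3]
  rw [show w 2 - w 1 = -(w 1 - w 2) by ring]
  generalize βT e = p
  generalize qT e (D 0) = q
  push_cast
  field_simp
  ring

end SD

end Mono
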